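import Mathlib

/-!
# Pairwise-updated counters: definitions and the basic estimates (MP_7ec162_pr)
-/

set_option autoImplicit false

namespace Pool.Agent.Lib.MP7ec162

open Finset

variable {N : ℕ}

/-- The counters after the pair `{i, j}` is drawn: the smaller of `c i`, `c j` increases by one, and
both do if they are equal. No other counter changes. -/
def upd (c : Fin N → ℤ) (i j : Fin N) : Fin N → ℤ := fun k =>
  if (k = i ∧ c i ≤ c j) ∨ (k = j ∧ c j ≤ c i) then c k + 1 else c k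

/-- The total of the counters. -/
def tot (c : Fin N → ℤ) : ℝ := ∑ i, (c i : ℝ)

/-- `step f c` is the expectation of `f` of the next state, when the present state is `c`: the
average over all `N (N - 1)` ordered pairs of distinct indices. -/
noncomputable def step (f : (Fin N → ℤ) → ℝ) (c : Fin N → ℤ) : ℝ :=
  (∑ p ∈ (univ : Finset (Fin N)).offDiag, f (upd c p.1 p.2)) / ((N : ℝ) * (N - 1))

/-- The expectation of the total after `t` steps, started from `c`. -/
noncomputable def expTot (t : ℕ) (c : Fin N → ℤ) : ℝ := (step^[t] tot) c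

/-- `v` is the speed of the system of `N` counters: the expected total after `t` steps, divided by
`t`, tends to `v`, for every initial state. -/
def IsSpeed (N : ℕ) (v : ℝ) : Prop :=
  ∀ c : Fin N → ℤ, Filter.Tendsto (fun t : ℕ => expTot t c / t) Filter.atTop (nhds v)

/-- The quadratic spread. -/
def Q (c : Fin N → ℤ) : ℝ := ∑ i, ∑ j, ((c i : ℝ) - c j) ^ 2

theorem den_pos (hN : 2 ≤ N) : (0 : ℝ) < (N : ℝ) * (N - 1) := by
  have : (2 : ℝ) ≤ N := by exact_mod_cast hN
  nlinarith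

theorem card_off : (((univ : Finset (Fin N)).offDiag.card : ℕ) : ℝ) = (N : ℝ) * (N - 1) := by
  rw [Finset.offDiag_card, Finset.card_fin]
  have : N ≤ N * N := Nat.le_mul_self N
  rw [Nat.cast_sub this]
  push_cast
  ring

theorem step_mono (hN : 2 ≤ N) {f g : (Fin N → ℤ) → ℝ} {c : Fin N → ℤ}
    (h : ∀ i j, i ≠ j → f (upd c i j) ≤ g (upd c i j)) : step f c ≤ step g c := by
  unfold step
  apply div_le_div_of_nonneg_right _ (den_pos hN).le
  apply Finset.sum_le_sum
  intro p hp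
  exact h _ _ (Finset.mem_offDiag.mp hp).2.2

theorem step_const (hN : 2 ≤ N) (f : (Fin N → ℤ) → ℝ) (a : ℝ) (c : Fin N → ℤ) :
    step (fun x => f x + a) c = step f c + a := by
  unfold step
  rw [Finset.sum_add_distrib, Finset.sum_const, nsmul_eq_mul, card_off, add_div]
  congr 1
  exact mul_div_cancel_left₀ a (den_pos hN).ne'

theorem step_add (f g : (Fin N → ℤ) → ℝ) (c : Fin N → ℤ) :
    step (fun x => f x + g x) c = step f c + step g c := by
  unfold step
  rw [Finset.sum_add_distrib, add_div]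

theorem step_smul (a : ℝ) (f : (Fin N → ℤ) → ℝ) (c : Fin N → ℤ) :
    step (fun x => a * f x) c = a * step f c := by
  unfold step
  rw [← Finset.mul_sum, mul_div_assoc]

/-- A drift inequality, from the sum over the pairs. -/
theorem step_le_of_sum (hN : 2 ≤ N) {F : (Fin N → ℤ) → ℝ} {c : Fin N → ℤ} {v : ℝ}
    (h : ∑ p ∈ (univ : Finset (Fin N)).offDiag, (F (upd c p.1 p.2) - F c) ≤
      v * ((N : ℝ) * (N - 1))) : step F c ≤ F c + v := by
  unfold step
  rw [Finset.sum_sub_distrib, Finset.sum_const, nsmul_eq_mul, card_off] at h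
  rw [div_le_iff₀ (den_pos hN)]
  linarith

theorem le_step_of_sum (hN : 2 ≤ N) {F : (Fin N → ℤ) → ℝ} {c : Fin N → ℤ} {v : ℝ}
    (h : v * ((N : ℝ) * (N - 1)) ≤
      ∑ p ∈ (univ : Finset (Fin N)).offDiag, (F (upd c p.1 p.2) - F c)) : F c + v ≤ step F c := by
  unfold step
  rw [Finset.sum_sub_distrib, Finset.sum_const, nsmul_eq_mul, card_off] at h
  rw [le_div_iff₀ (den_pos hN)]
  linarith

theorem iter_succ (t : ℕ) (f : (Fin N → ℤ) → ℝ) (c : Fin N → ℤ) :
    (step^[t + 1] f) c = step (step^[t] f) c := by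
  rw [Function.iterate_succ_apply']

theorem iter_add (t : ℕ) (f g : (Fin N → ℤ) → ℝ) (c : Fin N → ℤ) :
    (step^[t] (fun x => f x + g x)) c = (step^[t] f) c + (step^[t] g) c := by
  induction t generalizing c with
  | zero => rfl
  | succ t ih =>
    rw [iter_succ, iter_succ, iter_succ, ← step_add]
    congr 1
    funext x
    exact ih x

theorem iter_smul (t : ℕ) (a : ℝ) (f : (Fin N → ℤ) → ℝ) (c : Fin N → ℤ) :
    (step^[t] (fun x => a * f x)) c = a * (step^[t] f) c := by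
  induction t generalizing c with
  | zero => rfl
  | succ t ih =>
    rw [iter_succ, iter_succ, ← step_smul]
    congr 1
    funext x
    exact ih x

theorem iter_const (hN : 2 ≤ N) (t : ℕ) (f : (Fin N → ℤ) → ℝ) (a : ℝ) (c : Fin N → ℤ) :
    (step^[t] (fun x => f x + a)) c = (step^[t] f) c + a := by
  induction t generalizing c with
  | zero => rfl
  | succ t ih =>
    rw [iter_succ, iter_succ, ← step_const hN]
    congr 1
    funext x
    exact ih x

/-- Monotonicity on an invariant set of states. -/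
theorem iter_mono (hN : 2 ≤ N) {I : (Fin N → ℤ) → Prop}
    (hI : ∀ c i j, i ≠ j → I c → I (upd c i j)) {f g : (Fin N → ℤ) → ℝ}
    (h : ∀ c, I c → f c ≤ g c) (t : ℕ) (c : Fin N → ℤ) (hc : I c) :
    (step^[t] f) c ≤ (step^[t] g) c := by
  induction t generalizing c with
  | zero => exact h c hc
  | succ t ih =>
    rw [iter_succ, iter_succ]
    exact step_mono hN fun i j hij => ih _ (hI c i j hij hc)

theorem iter_le (hN : 2 ≤ N) {I : (Fin N → ℤ) → Prop}
    (hI : ∀ c i j, i ≠ j → I c → I (upd c i j)) {F : (Fin N → ℤ) → ℝ} {v : ℝ}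
    (h : ∀ c, I c → step F c ≤ F c + v) (t : ℕ) (c : Fin N → ℤ) (hc : I c) :
    (step^[t] F) c ≤ F c + v * t := by
  induction t generalizing c with
  | zero => simp
  | succ t ih =>
    rw [iter_succ]
    have h1 : step (step^[t] F) c ≤ step (fun x => F x + v * t) c :=
      step_mono hN fun i j hij => ih _ (hI c i j hij hc)
    rw [step_const hN] at h1
    have h2 := h c hc
    push_cast
    linarith

theorem le_iter (hN : 2 ≤ N) {I : (Fin N → ℤ) → Prop}
    (hI : ∀ c i j, i ≠ j → I c → I (upd c i j)) {F : (Fin N → ℤ) → ℝ} {v : ℝ}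
    (h : ∀ c, I c → F c + v ≤ step F c) (t : ℕ) (c : Fin N → ℤ) (hc : I c) :
    F c + v * t ≤ (step^[t] F) c := by
  induction t generalizing c with
  | zero => simp
  | succ t ih =>
    rw [iter_succ]
    have h1 : step (fun x => F x + v * t) c ≤ step (step^[t] F) c :=
      step_mono hN fun i j hij => ih _ (hI c i j hij hc)
    rw [step_const hN] at h1
    have h2 := h c hc
    push_cast
    linarith

/-- The increment of a counter. -/
theorem upd_cast (c : Fin N → ℤ) {a b : Fin N} (hab : a ≠ b) (k : Fin N) :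
    ((upd c a b k : ℤ) : ℝ) = c k + ((if k = a then (if c a ≤ c b then 1 else 0) else 0) +
      (if k = b then (if c b ≤ c a then 1 else 0) else 0)) := by
  unfold upd
  by_cases h1 : k = a
  · subst h1
    have h2 : k ≠ b := hab
    by_cases h3 : c k ≤ c b <;> simp [h2, h3]
  · by_cases h2 : k = b
    · subst h2
      by_cases h3 : c k ≤ c a <;> simp [h1, h3]
    · simp [h1, h2]

theorem Q_nonneg (c : Fin N → ℤ) : 0 ≤ Q c :=
  Finset.sum_nonneg fun _ _ => Finset.sum_nonneg fun _ _ => sq_nonneg _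

/-- The quadratic spread after one update. -/
theorem Q_upd (c : Fin N → ℤ) {a b : Fin N} (hab : a ≠ b) :
    Q (upd c a b) ≤ Q c + 4 * ((if c a ≤ c b then 1 else 0) * ∑ j, ((c a : ℝ) - c j) +
      (if c b ≤ c a then 1 else 0) * ∑ j, ((c b : ℝ) - c j)) + (N : ℝ) ^ 2 := by
  set e : Fin N → ℝ := fun k => (if k = a then (if c a ≤ c b then 1 else 0) else 0) +
      (if k = b then (if c b ≤ c a then 1 else 0) else 0) with he
  have hu : ∀ k, ((upd c a b k : ℤ) : ℝ) = c k + e k := fun k => upd_cast c hab k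
  have he0 : ∀ k, 0 ≤ e k ∧ e k ≤ 1 := by
    intro k
    simp only [he]
    by_cases h1 : k = a
    · have h2 : k ≠ b := by rw [h1]; exact hab
      rw [if_pos h1, if_neg h2]
      split_ifs <;> norm_num
    · rw [if_neg h1]
      by_cases h2 : k = b
      · rw [if_pos h2]
        split_ifs <;> norm_num
      · rw [if_neg h2]
        norm_num
  have h1 : Q (upd c a b) ≤ ∑ i, ∑ j, (((c i : ℝ) - c j) ^ 2 + 2 * (((c i : ℝ) - c j) * e i) +
      2 * (((c j : ℝ) - c i) * e j) + 1) := by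
    unfold Q
    apply Finset.sum_le_sum
    intro i _
    apply Finset.sum_le_sum
    intro j _
    rw [hu i, hu j]
    have h3 := he0 i
    have h4 := he0 j
    have : (e i - e j) ^ 2 ≤ 1 := by
      rw [sq_le_one_iff_abs_le_one, abs_le]
      constructor <;> linarith
    nlinarith
  have hs : ∑ i, ∑ j, (((c i : ℝ) - c j) * e i) =
      (if c a ≤ c b then 1 else 0) * ∑ j, ((c a : ℝ) - c j) +
      (if c b ≤ c a then 1 else 0) * ∑ j, ((c b : ℝ) - c j) := by
    have : ∀ i, ∑ j, (((c i : ℝ) - c j) * e i) = (if i = a then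
        ((if c a ≤ c b then 1 else 0) * ∑ j, ((c a : ℝ) - c j)) else 0) +
        (if i = b then ((if c b ≤ c a then 1 else 0) * ∑ j, ((c b : ℝ) - c j)) else 0) := by
      intro i
      rw [← Finset.sum_mul]
      simp only [he]
      by_cases h1 : i = a
      · have h2 : i ≠ b := by rw [h1]; exact hab
        rw [if_pos h1, if_neg h2, if_pos h1, if_neg h2, h1]
        ring
      · by_cases h2 : i = b
        · rw [if_neg h1, if_pos h2, if_neg h1, if_pos h2, h2]
          ring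
        · rw [if_neg h1, if_neg h2, if_neg h1, if_neg h2]
          ring
    rw [Finset.sum_congr rfl fun i _ => this i, Finset.sum_add_distrib, Finset.sum_ite_eq',
      Finset.sum_ite_eq']
    simp
  have hs2 : ∑ i, ∑ j, (((c j : ℝ) - c i) * e j) = ∑ i, ∑ j, (((c i : ℝ) - c j) * e i) :=
    Finset.sum_comm
  have h5 : ∑ i, ∑ j, (((c i : ℝ) - c j) ^ 2 + 2 * (((c i : ℝ) - c j) * e i) +
      2 * (((c j : ℝ) - c i) * e j) + 1) = Q c + 2 * ∑ i, ∑ j, (((c i : ℝ) - c j) * e i) +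
      2 * ∑ i, ∑ j, (((c j : ℝ) - c i) * e j) + (N : ℝ) ^ 2 := by
    unfold Q
    simp only [Finset.sum_add_distrib, Finset.mul_sum]
    simp [Finset.sum_const]
    ring
  rw [h5, hs2, hs] at h1
  linarith

/-- Sums over the off-diagonal pairs are invariant under the swap. -/
theorem sum_swap (f : Fin N → Fin N → ℝ) :
    ∑ p ∈ (univ : Finset (Fin N)).offDiag, f p.2 p.1 =
      ∑ p ∈ (univ : Finset (Fin N)).offDiag, f p.1 p.2 := by
  refine Finset.sum_nbij' (fun p => (p.2, p.1)) (fun p => (p.2, p.1)) ?_ ?_ ?_ ?_ ?_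
  · intro p hp
    simp only [Finset.mem_offDiag, Finset.mem_univ, true_and] at hp ⊢
    exact fun h => hp h.symm
  · intro p hp
    simp only [Finset.mem_offDiag, Finset.mem_univ, true_and] at hp ⊢
    exact fun h => hp h.symm
  · intro p _
    rfl
  · intro p _
    rfl
  · intro p _
    rfl

/-- Off-diagonal sums as double sums minus the diagonal. -/
theorem sum_off (f : Fin N → Fin N → ℝ) :
    ∑ p ∈ (univ : Finset (Fin N)).offDiag, f p.1 p.2 = ∑ i, ∑ j, f i j - ∑ i, f i i := by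
  have h1 : ∑ p ∈ (univ : Finset (Fin N)).offDiag, f p.1 p.2 +
      ∑ p ∈ (univ : Finset (Fin N)).diag, f p.1 p.2 = ∑ i, ∑ j, f i j := by
    rw [← Finset.sum_product', ← Finset.diag_union_offDiag (univ : Finset (Fin N)),
      Finset.sum_union (Finset.disjoint_diag_offDiag _)]
    ring
  have h2 : ∑ p ∈ (univ : Finset (Fin N)).diag, f p.1 p.2 = ∑ i, f i i := by
    rw [Finset.sum_diag]
  linarith

theorem rank_sum (c : Fin N → ℤ) :
    ∑ a, ∑ b, (if c a ≤ c b then (1 : ℝ) else 0) * ∑ j, ((c a : ℝ) - c j) ≤ 0 := by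
  have h1 : ∑ a, ∑ b, (if c a ≤ c b then (1 : ℝ) else 0) * ∑ j, ((c a : ℝ) - c j) =
      ∑ a, ∑ j, (∑ b, (if c a ≤ c b then (1 : ℝ) else 0)) * ((c a : ℝ) - c j) := by
    refine Finset.sum_congr rfl fun a _ => ?_
    rw [← Finset.sum_mul, Finset.mul_sum]
  have h2 : ∑ a, ∑ j, (∑ b, (if c a ≤ c b then (1 : ℝ) else 0)) * ((c a : ℝ) - c j) =
      ∑ a, ∑ j, (∑ b, (if c j ≤ c b then (1 : ℝ) else 0)) * ((c j : ℝ) - c a) := by
    rw [Finset.sum_comm]
  have h3 : ∑ a, ∑ j, ((∑ b, (if c a ≤ c b then (1 : ℝ) else 0)) * ((c a : ℝ) - c j) +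
      (∑ b, (if c j ≤ c b then (1 : ℝ) else 0)) * ((c j : ℝ) - c a)) ≤ 0 := by
    apply Finset.sum_nonpos
    intro a _
    apply Finset.sum_nonpos
    intro j _
    have key : ∀ x y : Fin N, c x ≤ c y → ∑ b, (if c y ≤ c b then (1 : ℝ) else 0) ≤
        ∑ b, (if c x ≤ c b then (1 : ℝ) else 0) := by
      intro x y hxy
      apply Finset.sum_le_sum
      intro b _
      by_cases h : c y ≤ c b
      · rw [if_pos h, if_pos (hxy.trans h)]
      · rw [if_neg h]
        split_ifs <;> norm_num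
    rcases le_total (c a) (c j) with h | h
    · have h' : (c a : ℝ) ≤ c j := by exact_mod_cast h
      have := key a j h
      nlinarith
    · have h' : (c j : ℝ) ≤ c a := by exact_mod_cast h
      have := key j a h
      nlinarith
  simp only [Finset.sum_add_distrib] at h3
  rw [h1]
  linarith

theorem sum_diff_zero (c : Fin N → ℤ) : ∑ a, ∑ j, ((c a : ℝ) - c j) = 0 := by
  have : ∑ a, ∑ j, ((c a : ℝ) - c j) = ∑ a, ∑ j, ((c j : ℝ) - c a) := Finset.sum_comm
  have h2 : ∑ a, ∑ j, ((c j : ℝ) - c a) = - ∑ a, ∑ j, ((c a : ℝ) - c j) := by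
    rw [← Finset.sum_neg_distrib]
    refine Finset.sum_congr rfl fun a _ => ?_
    rw [← Finset.sum_neg_distrib]
    refine Finset.sum_congr rfl fun b _ => ?_
    ring
  linarith

/-- The drift of the quadratic spread is bounded. -/
theorem Q_step (hN : 2 ≤ N) (c : Fin N → ℤ) : step Q c ≤ Q c + (N : ℝ) ^ 2 := by
  apply step_le_of_sum hN
  have h1 : ∑ p ∈ (univ : Finset (Fin N)).offDiag, (Q (upd c p.1 p.2) - Q c) ≤
      ∑ p ∈ (univ : Finset (Fin N)).offDiag, (4 * ((if c p.1 ≤ c p.2 then 1 else 0) *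
      ∑ j, ((c p.1 : ℝ) - c j) + (if c p.2 ≤ c p.1 then 1 else 0) * ∑ j, ((c p.2 : ℝ) - c j)) +
      (N : ℝ) ^ 2) := by
    apply Finset.sum_le_sum
    intro p hp
    have := Q_upd c (Finset.mem_offDiag.mp hp).2.2
    linarith
  refine h1.trans ?_
  rw [Finset.sum_add_distrib, Finset.sum_const, nsmul_eq_mul, card_off, ← Finset.mul_sum,
    Finset.sum_add_distrib]
  have h2 := sum_swap (N := N) (fun a b => (if c a ≤ c b then (1 : ℝ) else 0) *
    ∑ j, ((c a : ℝ) - c j))
  have h3 := sum_off (N := N) (fun a b => (if c a ≤ c b then (1 : ℝ) else 0) *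
    ∑ j, ((c a : ℝ) - c j))
  have h4 := rank_sum c
  have h5 : ∑ a, (if c a ≤ c a then (1 : ℝ) else 0) * ∑ j, ((c a : ℝ) - c j) = 0 := by
    rw [← sum_diff_zero c]
    refine Finset.sum_congr rfl fun a _ => ?_
    simp
  rw [h2, h3, h5]
  nlinarith [den_pos hN]

theorem Q_iter (hN : 2 ≤ N) (t : ℕ) (c : Fin N → ℤ) : (step^[t] Q) c ≤ Q c + (N : ℝ) ^ 2 * t :=
  iter_le hN (I := fun _ => True) (fun _ _ _ _ _ => trivial) (fun c _ => Q_step hN c) t c trivial

/-- The bound for the expected total from a drift inequality. -/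
theorem upper_of_drift (hN : 2 ≤ N) {I : (Fin N → ℤ) → Prop}
    (hI : ∀ c i j, i ≠ j → I c → I (upd c i j)) {h : (Fin N → ℤ) → ℝ} {v : ℝ}
    (hh : ∀ ε : ℝ, 0 < ε → ∃ B : ℝ, ∀ c, |h c| ≤ ε * Q c + B)
    (hd : ∀ c, I c → step (fun x => tot x + h x) c ≤ tot c + h c + v) (c : Fin N → ℤ) (hc : I c) :
    ∀ ε : ℝ, 0 < ε → ∃ K : ℝ, ∀ t : ℕ, expTot t c ≤ (v + ε) * t + K := by
  intro ε hε
  have hNr : (0 : ℝ) < (N : ℝ) ^ 2 := by positivity
  obtain ⟨B, hB⟩ := hh (ε / (N : ℝ) ^ 2) (by positivity)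
  refine ⟨tot c + h c + ε / (N : ℝ) ^ 2 * Q c + B, fun t => ?_⟩
  have h1 := iter_le hN hI (F := fun x => tot x + h x) hd t c hc
  rw [iter_add] at h1
  have h2 : (step^[t] (fun x => -1 * h x)) c ≤
      (step^[t] (fun x => ε / (N : ℝ) ^ 2 * Q x + B)) c :=
    iter_mono hN hI (fun x _ => by have := (abs_le.mp (hB x)).1; linarith) t c hc
  rw [iter_smul, iter_const hN, iter_smul] at h2
  have h3 := Q_iter hN t c
  have h4 : ε / (N : ℝ) ^ 2 * (step^[t] Q) c ≤ ε / (N : ℝ) ^ 2 * (Q c + (N : ℝ) ^ 2 * t) :=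
    mul_le_mul_of_nonneg_left h3 (by positivity)
  have h5 : ε / (N : ℝ) ^ 2 * (Q c + (N : ℝ) ^ 2 * t) = ε / (N : ℝ) ^ 2 * Q c + ε * t := by
    field_simp
  unfold expTot
  linarith

theorem lower_of_drift (hN : 2 ≤ N) {I : (Fin N → ℤ) → Prop}
    (hI : ∀ c i j, i ≠ j → I c → I (upd c i j)) {h : (Fin N → ℤ) → ℝ} {v : ℝ}
    (hh : ∀ ε : ℝ, 0 < ε → ∃ B : ℝ, ∀ c, |h c| ≤ ε * Q c + B)
    (hd : ∀ c, I c → tot c + h c + v ≤ step (fun x => tot x + h x) c) (c : Fin N → ℤ) (hc : I c) :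
    ∀ ε : ℝ, 0 < ε → ∃ K : ℝ, ∀ t : ℕ, (v - ε) * t - K ≤ expTot t c := by
  intro ε hε
  have hNr : (0 : ℝ) < (N : ℝ) ^ 2 := by positivity
  obtain ⟨B, hB⟩ := hh (ε / (N : ℝ) ^ 2) (by positivity)
  refine ⟨-(tot c + h c) + ε / (N : ℝ) ^ 2 * Q c + B, fun t => ?_⟩
  have h1 := le_iter hN hI (F := fun x => tot x + h x) hd t c hc
  rw [iter_add] at h1
  have h2 : (step^[t] h) c ≤
      (step^[t] (fun x => ε / (N : ℝ) ^ 2 * Q x + B)) c :=
    iter_mono hN hI (fun x _ => by have := (abs_le.mp (hB x)).2; linarith) t c hc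
  rw [iter_const hN, iter_smul] at h2
  have h3 := Q_iter hN t c
  have h4 : ε / (N : ℝ) ^ 2 * (step^[t] Q) c ≤ ε / (N : ℝ) ^ 2 * (Q c + (N : ℝ) ^ 2 * t) :=
    mul_le_mul_of_nonneg_left h3 (by positivity)
  have h5 : ε / (N : ℝ) ^ 2 * (Q c + (N : ℝ) ^ 2 * t) = ε / (N : ℝ) ^ 2 * Q c + ε * t := by
    field_simp
  unfold expTot
  linarith

/-- The speed is at most `v`. -/
theorem speed_le {V v : ℝ} (hV : IsSpeed N V) (c : Fin N → ℤ)
    (h : ∀ ε : ℝ, 0 < ε → ∃ K : ℝ, ∀ t : ℕ, expTot t c ≤ (v + ε) * t + K) : V ≤ v := by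
  apply le_of_forall_pos_le_add
  intro ε hε
  obtain ⟨K, hK⟩ := h ε hε
  have h1 : Filter.Tendsto (fun t : ℕ => (v + ε) + K / (t : ℝ)) Filter.atTop
      (nhds ((v + ε) + 0)) :=
    tendsto_const_nhds.add (tendsto_const_div_atTop_nhds_zero_nat K)
  rw [add_zero] at h1
  refine le_of_tendsto_of_tendsto (hV c) h1 ?_
  filter_upwards [Filter.eventually_gt_atTop 0] with t ht
  have ht' : (0 : ℝ) < t := by exact_mod_cast ht
  rw [div_le_iff₀ ht', add_mul, div_mul_cancel₀ _ ht'.ne']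
  exact hK t

theorem le_speed {V v : ℝ} (hV : IsSpeed N V) (c : Fin N → ℤ)
    (h : ∀ ε : ℝ, 0 < ε → ∃ K : ℝ, ∀ t : ℕ, (v - ε) * t - K ≤ expTot t c) : v ≤ V := by
  apply le_of_forall_pos_le_add
  intro ε hε
  obtain ⟨K, hK⟩ := h ε hε
  have h1 : Filter.Tendsto (fun t : ℕ => (v - ε) - K / (t : ℝ)) Filter.atTop
      (nhds ((v - ε) - 0)) :=
    tendsto_const_nhds.sub (tendsto_const_div_atTop_nhds_zero_nat K)
  rw [sub_zero] at h1
  have h2 : v - ε ≤ V := by
    refine le_of_tendsto_of_tendsto h1 (hV c) ?_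
    filter_upwards [Filter.eventually_gt_atTop 0] with t ht
    have ht' : (0 : ℝ) < t := by exact_mod_cast ht
    rw [le_div_iff₀ ht', sub_mul, div_mul_cancel₀ _ ht'.ne']
    exact hK t
  linarith

end Pool.Agent.Lib.MP7ec162
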