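import Pool.Agent.Lib.MP_7ec162_pr.Levels

/-!
# General bounds for the speed (MP_7ec162_pr)
-/

set_option autoImplicit false

namespace Pool.Agent.Lib.MP7ec162

open Finset

/-- The general upper bound, for every integer `a ≥ 1`. -/
theorem upper_general {N : ℕ} (hN : 2 ≤ N) {V : ℝ} (hV : IsSpeed N V) (a : ℤ) (ha : 1 ≤ a) :
    V ≤ 1 + ((N : ℝ) ^ 2 - 1 + 4 * a * (a - 1)) / (((N : ℝ) - 1) * (3 * N + 8 * a - 11)) := by
  have hNr : (2 : ℝ) ≤ N := by exact_mod_cast hN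
  have har : (1 : ℝ) ≤ a := by exact_mod_cast ha
  have hD : (0 : ℝ) < 3 * N + 8 * a - 11 := by linarith
  have hN1 : (0 : ℝ) < (N : ℝ) - 1 := by linarith
  obtain ⟨μ, hμ⟩ : ∃ μ : ℝ, μ = 3 / (3 * N + 8 * a - 11) := ⟨_, rfl⟩
  have hμ0 : 0 < μ := by rw [hμ]; positivity
  have hμe : μ * (3 * N + 8 * a - 11) = 3 := by
    rw [hμ]
    field_simp
  refine cert_upper hN (Φ := fun x _ => -μ * ((x : ℝ) * (N - x)))
    (W := fun r _ => (r : ℝ) * (r - 1) + μ * ((r : ℝ) * (r - 1) * ((4 * r + 1) / 3 - N)) +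
      4 * μ / 3 * a * (a - 1) * r) ?_ ?_ ?_ ?_ ?_ hV
  · simp
  · simp
  · simp
  · have : (1 + ((N : ℝ) ^ 2 - 1 + 4 * a * (a - 1)) / (((N : ℝ) - 1) * (3 * N + 8 * a - 11))) *
        ((N : ℝ) * (N - 1)) = (N : ℝ) * (N - 1) + μ / 3 * N * ((N : ℝ) ^ 2 - 1 + 4 * a * (a - 1)) := by
      rw [hμ]
      field_simp
    rw [this]
    apply le_of_eq
    ring
  · intro p q r hpq hqr hrN _ _ _
    obtain ⟨y, rfl⟩ := Nat.exists_eq_add_of_le hqr
    unfold cost
    push_cast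
    have hy : (0 : ℝ) ≤ y * (((y : ℝ) - a) * (y - a - 1)) := by
      apply mul_nonneg (Nat.cast_nonneg y)
      have h1 : (0 : ℤ) ≤ ((y : ℤ) - a) * ((y : ℤ) - a - 1) := by
        rcases le_or_gt ((y : ℤ) - a) 0 with h | h
        · exact mul_nonneg_of_nonpos_of_nonpos h (by omega)
        · exact mul_nonneg h.le (by omega)
      exact_mod_cast h1
    have h2 : 0 ≤ 4 * μ / 3 * (y * (((y : ℝ) - a) * (y - a - 1))) :=
      mul_nonneg (by positivity) hy
    linear_combination h2 - (y : ℝ) * (y - 1) / 3 * hμe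

theorem nat_mul_pred (n : ℕ) : (0 : ℝ) ≤ (n : ℝ) * (n - 1) := by
  rcases n with _ | n
  · simp
  · push_cast
    have : (0 : ℝ) ≤ n := Nat.cast_nonneg n
    nlinarith

theorem int_mul_pred (n : ℤ) : (0 : ℝ) ≤ (n : ℝ) * (n - 1) := by
  have : (0 : ℤ) ≤ n * (n - 1) := by
    rcases le_or_gt n 0 with h | h
    · exact mul_nonneg_of_nonpos_of_nonpos h (by omega)
    · exact mul_nonneg h.le (by omega)
  exact_mod_cast this

theorem cubic (y z : ℕ) : (0 : ℝ) ≤ (z : ℝ) * ((z : ℝ) ^ 2 + 3 * z - 6) + 2 * z * ((z : ℝ) - y) ^ 2 +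
    y * ((y : ℝ) - 1) * (y + 6) + 2 * y * z := by
  have hy : (0 : ℝ) ≤ y := Nat.cast_nonneg y
  have h1 := nat_mul_pred y
  have h2 : (0 : ℝ) ≤ y * ((y : ℝ) - 1) * (y + 6) := mul_nonneg h1 (by linarith)
  rcases Nat.lt_or_ge z 2 with h | h
  · interval_cases z
    · push_cast
      linarith
    · push_cast
      nlinarith
  · have hz : (2 : ℝ) ≤ z := by exact_mod_cast h
    have h3 : (0 : ℝ) ≤ (z : ℝ) * ((z : ℝ) ^ 2 + 3 * z - 6) := by
      apply mul_nonneg (by linarith)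
      nlinarith
    have h4 : (0 : ℝ) ≤ 2 * z * ((z : ℝ) - y) ^ 2 := by positivity
    have h5 : (0 : ℝ) ≤ 2 * y * z := by positivity
    linarith

/-- The general lower bound. -/
theorem lower_general {N : ℕ} (hN : 2 ≤ N) {V : ℝ} (hV : IsSpeed N V) :
    (12 * (N : ℝ) - 8) / (10 * N - 7) ≤ V := by
  have hNr : (2 : ℝ) ≤ N := by exact_mod_cast hN
  have hD : (0 : ℝ) < 10 * N - 7 := by linarith
  obtain ⟨κ, hκ⟩ : ∃ κ : ℝ, κ = 1 / (10 * N - 7) := ⟨_, rfl⟩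
  have hκ0 : 0 < κ := by rw [hκ]; positivity
  have hκe : κ * (10 * N - 7) = 1 := by
    rw [hκ]
    field_simp
  refine cert_lower hN
    (Φ := fun x y => -κ * (6 * ((x : ℝ) * (N - x)) + 3 / 2 * (((x : ℝ) - y) * (x - y - 1))))
    (W := fun r q => κ / 2 * (((r : ℝ) - q) * (r - q - 1) * (8 * N - 2 * r - 3 * (r - q - 2))) +
      (1 - 3 * κ) * (r * (r - 1)) + 6 * κ * ((r : ℝ) * (r - 1) * ((4 * r + 1) / 3 - N)))
    ?_ ?_ ?_ ?_ ?_ hV
  · simp
  · simp
  · simp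
  · have : (12 * (N : ℝ) - 8) / (10 * N - 7) = κ * (12 * N - 8) := by
      rw [hκ]
      field_simp
    rw [this]
    apply le_of_eq
    linear_combination (N : ℝ) * (N - 1) * hκe
  · intro p q r hpq hqr hrN _ _ _
    obtain ⟨y, rfl⟩ := Nat.exists_eq_add_of_le hqr
    obtain ⟨z, rfl⟩ := Nat.exists_eq_add_of_le hpq
    unfold cost
    have hN' : (p : ℝ) + z + y ≤ N := by exact_mod_cast hrN
    have h1 : (0 : ℝ) ≤ 8 * (z * ((z : ℝ) - 1)) * (N - (p + z + y)) :=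
      mul_nonneg (by have := nat_mul_pred z; linarith) (by linarith)
    have h2 : (0 : ℝ) ≤ (6 * (((z : ℝ) - y) * (z - y - 1)) + 8 * (y * ((y : ℝ) - 1))) * p := by
      apply mul_nonneg _ (Nat.cast_nonneg p)
      have h3 := int_mul_pred ((z : ℤ) - y)
      have h4 := nat_mul_pred y
      push_cast at h3
      linarith
    have h3 := cubic y z
    have hE := add_nonneg (add_nonneg h1 h2) h3
    have hE' := mul_nonneg (by positivity : (0 : ℝ) ≤ κ / 2) hE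
    push_cast
    linear_combination hE' + (y : ℝ) * (y - 1) * hκe

end Pool.Agent.Lib.MP7ec162
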