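import Pool.Agent.Lib.MP_7ec162_pr.Basic

/-!
# Existence of the speed (MP_7ec162_pr)
-/

set_option autoImplicit false

namespace Pool.Agent.Lib.MP7ec162

open Finset

variable {N : ℕ}

/-- Monotone functions of the state. -/
def Mono (f : (Fin N → ℤ) → ℝ) : Prop := ∀ c d : Fin N → ℤ, (∀ i, c i ≤ d i) → f c ≤ f d

/-- Covariance under translations. -/
def Cov (κ : ℝ) (f : (Fin N → ℤ) → ℝ) : Prop :=
  ∀ (c : Fin N → ℤ) (k : ℤ), f (fun i => c i + k) = f c + κ * k

theorem upd_mono {c d : Fin N → ℤ} (h : ∀ i, c i ≤ d i) (i j : Fin N) (k : Fin N) :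
    upd c i j k ≤ upd d i j k := by
  have hi := h i
  have hj := h j
  have hk := h k
  by_cases h1 : (k = i ∧ c i ≤ c j) ∨ (k = j ∧ c j ≤ c i)
  · have hu : upd c i j k = c k + 1 := if_pos h1
    rw [hu]
    by_cases h2 : (k = i ∧ d i ≤ d j) ∨ (k = j ∧ d j ≤ d i)
    · have hv : upd d i j k = d k + 1 := if_pos h2
      rw [hv]
      omega
    · have hv : upd d i j k = d k := if_neg h2
      rw [hv]
      rw [not_or] at h2
      rcases h1 with ⟨rfl, h1⟩ | ⟨rfl, h1⟩
      · have := fun h => h2.1 ⟨rfl, h⟩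
        omega
      · have := fun h => h2.2 ⟨rfl, h⟩
        omega
  · have hu : upd c i j k = c k := if_neg h1
    rw [hu]
    unfold upd
    split_ifs <;> omega

theorem upd_shift (c : Fin N → ℤ) (m : ℤ) (i j : Fin N) :
    upd (fun l => c l + m) i j = fun l => upd c i j l + m := by
  funext k
  unfold upd
  simp only [add_le_add_iff_right]
  split_ifs <;> ring

theorem step_Mono (hN : 2 ≤ N) {f : (Fin N → ℤ) → ℝ} (h : Mono f) : Mono (step f) := by
  intro c d hcd
  unfold step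
  apply div_le_div_of_nonneg_right _ (den_pos hN).le
  exact Finset.sum_le_sum fun p _ => h _ _ (upd_mono hcd p.1 p.2)

theorem step_Cov (hN : 2 ≤ N) {κ : ℝ} {f : (Fin N → ℤ) → ℝ} (h : Cov κ f) : Cov κ (step f) := by
  intro c k
  rw [← step_const hN]
  unfold step
  congr 1
  refine Finset.sum_congr rfl fun p _ => ?_
  rw [upd_shift, h]

theorem iter_Mono (hN : 2 ≤ N) {f : (Fin N → ℤ) → ℝ} (h : Mono f) (t : ℕ) : Mono (step^[t] f) := by
  induction t with
  | zero => exact h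
  | succ t ih =>
    rw [Function.iterate_succ_apply']
    exact step_Mono hN ih

theorem iter_Cov (hN : 2 ≤ N) {κ : ℝ} {f : (Fin N → ℤ) → ℝ} (h : Cov κ f) (t : ℕ) :
    Cov κ (step^[t] f) := by
  induction t with
  | zero => exact h
  | succ t ih =>
    rw [Function.iterate_succ_apply']
    exact step_Cov hN ih

/-- The state zero. -/
def zr : Fin N → ℤ := fun _ => 0

theorem le_of_Mono_Cov {κ : ℝ} {f : (Fin N → ℤ) → ℝ} (h1 : Mono f) (h2 : Cov κ f)
    (c : Fin N → ℤ) {m : ℤ} (hm : ∀ i, c i ≤ m) : f c ≤ f zr + κ * m := by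
  rw [← h2]
  apply h1
  intro i
  simp only [zr, zero_add]
  exact hm i

theorem ge_of_Mono_Cov {κ : ℝ} {f : (Fin N → ℤ) → ℝ} (h1 : Mono f) (h2 : Cov κ f)
    (c : Fin N → ℤ) {m : ℤ} (hm : ∀ i, m ≤ c i) : f zr + κ * m ≤ f c := by
  rw [← h2]
  apply h1
  intro i
  simp only [zr, zero_add]
  exact hm i

/-- The maximum of the counters. -/
noncomputable def mx (c : Fin N → ℤ) : ℝ := ⨆ i, (c i : ℝ)

theorem le_mx (c : Fin N → ℤ) (i : Fin N) : (c i : ℝ) ≤ mx c :=
  le_ciSup (f := fun i => (c i : ℝ)) (Set.finite_range _).bddAbove i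

theorem exists_mx (hN : 2 ≤ N) (c : Fin N → ℤ) : ∃ j : Fin N, mx c = c j ∧ ∀ i, c i ≤ c j := by
  have : Nonempty (Fin N) := ⟨⟨0, by omega⟩⟩
  obtain ⟨j, _, hj⟩ := Finset.exists_max_image (univ : Finset (Fin N)) c Finset.univ_nonempty
  refine ⟨j, le_antisymm (ciSup_le fun i => ?_) (le_mx c j), fun i => hj i (Finset.mem_univ i)⟩
  exact_mod_cast hj i (Finset.mem_univ i)

theorem mx_Mono (hN : 2 ≤ N) : Mono (mx : (Fin N → ℤ) → ℝ) := by
  intro c d hcd
  obtain ⟨j, hj, _⟩ := exists_mx hN c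
  rw [hj]
  have h1 : (c j : ℝ) ≤ d j := by exact_mod_cast hcd j
  exact h1.trans (le_mx d j)

theorem mx_Cov (hN : 2 ≤ N) : Cov 1 (mx : (Fin N → ℤ) → ℝ) := by
  intro c k
  obtain ⟨j, hj, hj'⟩ := exists_mx hN c
  obtain ⟨l, hl, hl'⟩ := exists_mx hN (fun i => c i + k)
  rw [hj, hl, one_mul]
  have h1 := hj' l
  have h2 := hl' j
  have h3 : c l + k = c j + k := by omega
  rw [h3]
  push_cast
  ring

theorem tot_Mono : Mono (tot : (Fin N → ℤ) → ℝ) := by
  intro c d hcd
  unfold tot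
  exact Finset.sum_le_sum fun i _ => by exact_mod_cast hcd i

theorem tot_Cov : Cov (N : ℝ) (tot : (Fin N → ℤ) → ℝ) := by
  intro c k
  unfold tot
  push_cast
  rw [Finset.sum_add_distrib, Finset.sum_const, nsmul_eq_mul, Finset.card_univ, Fintype.card_fin]

/-- The expected maximum, started from zero. -/
noncomputable def M (N : ℕ) (t : ℕ) : ℝ := (step^[t] (mx : (Fin N → ℤ) → ℝ)) zr

theorem M_subadd (hN : 2 ≤ N) : Subadditive (M N) := by
  intro s t
  unfold M
  rw [Function.iterate_add_apply]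
  have h1 : (step^[s] (step^[t] (mx : (Fin N → ℤ) → ℝ))) zr ≤
      (step^[s] (fun c : Fin N → ℤ => mx c + M N t)) zr := by
    refine iter_mono hN (I := fun _ => True) (fun _ _ _ _ _ => trivial) (fun c _ => ?_) s zr trivial
    obtain ⟨j, hj, hj'⟩ := exists_mx hN c
    have := le_of_Mono_Cov (iter_Mono hN (mx_Mono hN) t) (iter_Cov hN (mx_Cov hN) t) c hj'
    rw [hj]
    unfold M
    linarith
  rw [iter_const hN] at h1
  exact h1

theorem M_nonneg (hN : 2 ≤ N) (t : ℕ) : 0 ≤ M N t := by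
  have h1 := le_iter hN (I := fun _ : Fin N → ℤ => True) (fun _ _ _ _ _ => trivial) (F := mx)
    (v := 0) (fun c _ => by
      rw [add_zero]
      have h2 : step (fun _ : Fin N → ℤ => (0 : ℝ) + mx c) c ≤ step mx c := by
        apply step_mono hN
        intro i j _
        rw [zero_add]
        obtain ⟨l, hl, _⟩ := exists_mx hN c
        rw [hl]
        refine le_trans ?_ (le_mx (upd c i j) l)
        have : c l ≤ upd c i j l := by
          unfold upd
          split_ifs <;> omega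
        exact_mod_cast this
      rw [step_const hN] at h2
      have h3 : step (fun _ : Fin N → ℤ => (0 : ℝ)) c = 0 := by
        unfold step
        simp
      linarith) t zr trivial
  obtain ⟨l, hl, _⟩ := exists_mx hN (zr : Fin N → ℤ)
  have h4 : mx (zr : Fin N → ℤ) = 0 := by
    rw [hl]
    simp [zr]
  unfold M
  linarith

theorem tot_le_mx (hN : 2 ≤ N) (c : Fin N → ℤ) : tot c ≤ N * mx c := by
  unfold tot
  have : (N : ℝ) * mx c = ∑ _i : Fin N, mx c := by
    rw [Finset.sum_const, nsmul_eq_mul, Finset.card_univ, Fintype.card_fin]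
  rw [this]
  exact Finset.sum_le_sum fun i _ => le_mx c i

theorem mx_le_tot (hN : 2 ≤ N) (ε : ℝ) (hε : 0 < ε) (c : Fin N → ℤ) :
    N * mx c ≤ tot c + (ε * Q c + N / ε) := by
  obtain ⟨j, hj, _⟩ := exists_mx hN c
  rw [hj]
  have h1 : (N : ℝ) * c j - tot c = ∑ i, ((c j : ℝ) - c i) := by
    unfold tot
    rw [Finset.sum_sub_distrib, Finset.sum_const, nsmul_eq_mul, Finset.card_univ, Fintype.card_fin]
  have h2 : ∑ i, ((c j : ℝ) - c i) ≤ ∑ i, (ε * ((c j : ℝ) - c i) ^ 2 + 1 / ε) := by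
    apply Finset.sum_le_sum
    intro i _
    set s : ℝ := (c j : ℝ) - c i
    have h8 : 0 ≤ (ε * s - 1 / 2) ^ 2 / ε := by positivity
    have h9 : (ε * s - 1 / 2) ^ 2 / ε = ε * s ^ 2 - s + 1 / ε / 4 := by
      field_simp
      ring
    have h10 : 0 ≤ 1 / ε := by positivity
    linarith
  rw [Finset.sum_add_distrib, ← Finset.mul_sum, Finset.sum_const, nsmul_eq_mul, Finset.card_univ,
    Fintype.card_fin] at h2
  have h3 : ∑ l, ((c j : ℝ) - c l) ^ 2 ≤ Q c :=
    Finset.single_le_sum (f := fun m => ∑ l, ((c m : ℝ) - c l) ^ 2)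
      (fun _ _ => Finset.sum_nonneg fun _ _ => sq_nonneg _) (Finset.mem_univ j)
  have h4 := mul_le_mul_of_nonneg_left h3 hε.le
  have h5 : (N : ℝ) * (1 / ε) = N / ε := by ring
  rw [h5] at h2
  linarith

/-- The speed exists. -/
theorem exists_speed (hN : 2 ≤ N) : ∃ V : ℝ, IsSpeed N V := by
  have hbdd : BddBelow (Set.range fun n => M N n / n) := by
    refine ⟨0, ?_⟩
    rintro x ⟨n, rfl⟩
    exact div_nonneg (M_nonneg hN n) (Nat.cast_nonneg n)
  have hlim := (M_subadd hN).tendsto_lim hbdd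
  set m := (M_subadd hN).lim with hm
  have hN0 : (0 : ℝ) < N := by
    have : (2 : ℝ) ≤ N := by exact_mod_cast hN
    linarith
  refine ⟨N * m, fun c => ?_⟩
  have hup : ∀ t : ℕ, expTot t (zr : Fin N → ℤ) ≤ N * M N t := by
    intro t
    have := iter_mono hN (I := fun _ : Fin N → ℤ => True) (fun _ _ _ _ _ => trivial)
      (fun c _ => tot_le_mx hN c) t zr trivial
    rw [iter_smul] at this
    exact this
  have hlo : ∀ ε : ℝ, 0 < ε → ∃ B : ℝ, ∀ t : ℕ,
      N * M N t - (ε * t + B) ≤ expTot t (zr : Fin N → ℤ) := by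
    intro ε hε
    refine ⟨ε / (N : ℝ) ^ 2 * Q (zr : Fin N → ℤ) + N / (ε / (N : ℝ) ^ 2), fun t => ?_⟩
    have hε' : 0 < ε / (N : ℝ) ^ 2 := by positivity
    have h1 := iter_mono hN (I := fun _ : Fin N → ℤ => True) (fun _ _ _ _ _ => trivial)
      (fun c _ => mx_le_tot hN (ε / (N : ℝ) ^ 2) hε' c) t zr trivial
    rw [iter_smul, iter_add, iter_const hN, iter_smul] at h1
    have h2 := Q_iter hN t (zr : Fin N → ℤ)
    have h3 := mul_le_mul_of_nonneg_left h2 hε'.le
    have h4 : ε / (N : ℝ) ^ 2 * (Q (zr : Fin N → ℤ) + (N : ℝ) ^ 2 * t) =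
        ε / (N : ℝ) ^ 2 * Q (zr : Fin N → ℤ) + ε * t := by
      field_simp
    unfold M expTot
    linarith
  obtain ⟨K1, hK1⟩ : ∃ K : ℤ, ∀ i, c i ≤ K := by
    obtain ⟨j, _, hj⟩ := exists_mx hN c
    exact ⟨c j, hj⟩
  obtain ⟨K2, hK2⟩ : ∃ K : ℤ, ∀ i, K ≤ c i := by
    obtain ⟨j, _, hj⟩ := exists_mx hN (fun i => -c i)
    exact ⟨c j, fun i => by have := hj i; omega⟩
  rw [Metric.tendsto_atTop]
  intro ε hε
  obtain ⟨B, hB⟩ := hlo (ε / 4) (by positivity)
  have hl2 : Filter.Tendsto (fun t : ℕ => (N : ℝ) * (M N t / t)) Filter.atTop (nhds (N * m)) :=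
    hlim.const_mul _
  obtain ⟨T1, hT1⟩ := Metric.tendsto_atTop.mp hl2 (ε / 4) (by positivity)
  have hc1 := Metric.tendsto_atTop.mp (tendsto_const_div_atTop_nhds_zero_nat
    (|B| + |(N : ℝ) * K1| + |(N : ℝ) * K2|)) (ε / 4) (by positivity)
  obtain ⟨T2, hT2⟩ := hc1
  refine ⟨max (max T1 T2) 1, fun t ht => ?_⟩
  have ht1 := hT1 t (by omega)
  have ht2 := hT2 t (by omega)
  have ht0 : (0 : ℝ) < t := by
    have : 1 ≤ t := by omega
    exact_mod_cast this
  rw [Real.dist_eq, abs_lt] at ht1 ht2 ⊢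
  rw [sub_zero] at ht2
  have hA := (iter_Mono hN (tot_Mono (N := N)) t)
  have hC := (iter_Cov hN (tot_Cov (N := N)) t)
  have h1 : expTot t c ≤ expTot t (zr : Fin N → ℤ) + N * K1 := le_of_Mono_Cov hA hC c hK1
  have h2 : expTot t (zr : Fin N → ℤ) + N * K2 ≤ expTot t c := ge_of_Mono_Cov hA hC c hK2
  have h3 := hup t
  have h4 := hB t
  have e1 : (N : ℝ) * (M N t / t) = N * M N t / t := by ring
  rw [e1] at ht1
  have a1 := le_abs_self ((N : ℝ) * K1)
  have a2 := neg_abs_le ((N : ℝ) * K2)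
  have a3 := le_abs_self B
  have a4 := abs_nonneg ((N : ℝ) * K1)
  have a5 := abs_nonneg ((N : ℝ) * K2)
  have a6 := abs_nonneg B
  set A := |B| + |(N : ℝ) * K1| + |(N : ℝ) * K2| with hA'
  have u1 : expTot t c / t ≤ N * M N t / t + A / t := by
    rw [← add_div]
    apply div_le_div_of_nonneg_right _ ht0.le
    linarith
  have u2 : N * M N t / t - A / t - ε / 4 ≤ expTot t c / t := by
    have : N * M N t / t - A / t - ε / 4 = (N * M N t - A - ε / 4 * t) / t := by
      field_simp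
    rw [this]
    apply div_le_div_of_nonneg_right _ ht0.le
    linarith
  constructor <;> linarith [ht1.1, ht1.2, ht2.1, ht2.2]

end Pool.Agent.Lib.MP7ec162
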