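import Pool.Agent.Lib.MP_7ec162_pr.Tables
import Pool.Agent.Lib.MP_7ec162_pr.Tables2
import Pool.Agent.Lib.MP_7ec162_pr.Bounds
import Pool.Agent.Lib.MP_7ec162_pr.Exists

/-!
# The final forms (MP_7ec162_pr)
-/

set_option autoImplicit false

namespace Pool.Agent.Lib.MP7ec162

/-- The simple form of the upper bound. -/
theorem upper_simple {N : ℕ} (hN : 3 ≤ N) {V : ℝ} (hV : IsSpeed N V) : V ≤ 5 / 4 + 1 / N := by
  have h2 : 2 ≤ N := by omega
  rcases Nat.lt_or_ge N 4 with h4 | h4
  · have hN3 : N = 3 := by omega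
    subst hN3
    have := upper_general h2 hV 2 (by norm_num)
    refine this.trans ?_
    norm_num
  · obtain ⟨m, s, hs, rfl⟩ : ∃ m s : ℕ, s < 4 ∧ N = 4 * m + s :=
      ⟨N / 4, N % 4, Nat.mod_lt _ (by norm_num), by omega⟩
    have hm : 1 ≤ m := by omega
    have hm' : (1 : ℝ) ≤ m := by exact_mod_cast hm
    have := upper_general h2 hV (m + 1) (by omega)
    refine this.trans ?_
    have hs' : (0 : ℝ) ≤ s := Nat.cast_nonneg s
    push_cast
    have h1 : (0 : ℝ) < (4 * m + s - 1) * (3 * (4 * m + s) + 8 * (m + 1) - 11) := by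
      apply mul_pos <;> nlinarith
    have h0 : (0 : ℝ) < 4 * m + s := by linarith
    have h3 : ((4 * (m : ℝ) + s) ^ 2 - 1 + 4 * (m + 1) * (m + 1 - 1)) /
        ((4 * m + s - 1) * (3 * (4 * m + s) + 8 * (m + 1) - 11)) ≤ 1 / 4 + 1 / (4 * m + s) := by
      rw [div_add_div _ _ (by norm_num) h0.ne', div_le_div_iff₀ h1 (by positivity)]
      interval_cases s
      · push_cast
        nlinarith [mul_nonneg (by linarith : (0 : ℝ) ≤ m) (by linarith : (0 : ℝ) ≤ (m : ℝ) - 1)]
      · push_cast
        nlinarith [mul_nonneg (by linarith : (0 : ℝ) ≤ m) (by linarith : (0 : ℝ) ≤ (m : ℝ) - 1)]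
      · push_cast
        nlinarith [mul_nonneg (by linarith : (0 : ℝ) ≤ m) (by linarith : (0 : ℝ) ≤ (m : ℝ) - 1)]
      · push_cast
        nlinarith [mul_nonneg (by linarith : (0 : ℝ) ≤ m) (by linarith : (0 : ℝ) ≤ (m : ℝ) - 1)]
    linarith

/-- The upper bound for `M ≥ 9`. -/
theorem upper_nine {M : ℕ} (hM : 9 ≤ M) {V : ℝ} (hV : IsSpeed M V) : V < 12962 / 10000 := by
  rcases Nat.lt_or_ge M 15 with h | h
  · interval_cases M
    · have := speedU9 hV
      linarith
    · have := speedU10 hV
      linarith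
    · have := speedU11 hV
      linarith
    · have := speedU12 hV
      linarith
    · have := speedU13 hV
      linarith
    · have := speedU14 hV
      linarith
  · rcases Nat.lt_or_ge M 22 with h2 | h2
    · have h3 := upper_general (by omega) hV 5 (by norm_num)
      interval_cases M <;> norm_num at h3 <;> linarith
    · have h3 := upper_simple (by omega) hV
      have h4 : (22 : ℝ) ≤ M := by exact_mod_cast h2
      have h5 : 1 / (M : ℝ) ≤ 1 / 22 := one_div_le_one_div_of_le (by norm_num) h4
      linarith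

/-- The upper bound for `M ≥ 8`. -/
theorem upper_eight {M : ℕ} (hM : 8 ≤ M) {V : ℝ} (hV : IsSpeed M V) : V ≤ 1305 / 1000 := by
  rcases Nat.lt_or_ge M 9 with h | h
  · have hM8 : M = 8 := by omega
    subst hM8
    exact speedU8 hV
  · have := upper_nine h hV
    linarith

theorem upper_seven {M : ℕ} (hM : 7 ≤ M) {V : ℝ} (hV : IsSpeed M V) : V ≤ 1321 / 1000 := by
  rcases Nat.lt_or_ge M 8 with h | h
  · have hM8 : M = 7 := by omega
    subst hM8
    exact speedU7 hV
  · have := upper_eight h hV
    linarith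

theorem upper_six {M : ℕ} (hM : 6 ≤ M) {V : ℝ} (hV : IsSpeed M V) : V ≤ 1337 / 1000 := by
  rcases Nat.lt_or_ge M 7 with h | h
  · have hM8 : M = 6 := by omega
    subst hM8
    exact speedU6 hV
  · have := upper_seven h hV
    linarith

theorem upper_five {M : ℕ} (hM : 5 ≤ M) {V : ℝ} (hV : IsSpeed M V) : V ≤ 13605 / 10000 := by
  rcases Nat.lt_or_ge M 6 with h | h
  · have hM8 : M = 5 := by omega
    subst hM8
    exact speedU5 hV
  · have := upper_six h hV
    linarith

theorem upper_four {M : ℕ} (hM : 4 ≤ M) {V : ℝ} (hV : IsSpeed M V) : V ≤ 1451 / 1000 := by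
  rcases Nat.lt_or_ge M 5 with h | h
  · have hM8 : M = 4 := by omega
    subst hM8
    have h4 := upper_general (by norm_num) hV 2 (by norm_num)
    norm_num at h4
    linarith
  · have := upper_five h hV
    linarith

theorem upper_three {M : ℕ} (hM : 3 ≤ M) {V : ℝ} (hV : IsSpeed M V) : V ≤ 1572 / 1000 := by
  rcases Nat.lt_or_ge M 4 with h | h
  · have hM8 : M = 3 := by omega
    subst hM8
    have h4 := upper_general (by norm_num) hV 2 (by norm_num)
    norm_num at h4
    linarith
  · have := upper_four h hV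
    linarith

/-- `V(M) < V(N)` for `2 ≤ N ≤ 8` and all `M > N`. -/
theorem chain {N M : ℕ} (hN : 2 ≤ N) (hN8 : N ≤ 8) (hNM : N < M) {V W : ℝ} (hV : IsSpeed N V)
    (hW : IsSpeed M W) : W < V := by
  interval_cases N
  · have := speedL2 hV
    have := upper_three (by omega) hW
    linarith
  · have := speedL3 hV
    have := upper_four (by omega) hW
    linarith
  · have := speedL4 hV
    have := upper_five (by omega) hW
    linarith
  · have := speedL5 hV
    have := upper_six (by omega) hW
    linarith
  · have := speedL6 hV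
    have := upper_seven (by omega) hW
    linarith
  · have := speedL7 hV
    have := upper_eight (by omega) hW
    linarith
  · have := speedL8 hV
    have := upper_nine (by omega) hW
    linarith

end Pool.Agent.Lib.MP7ec162
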