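import Pool.Agent.Lib.MP_7ec162_pr.Basic

/-!
# Level functionals of the counters and their drift (MP_7ec162_pr)
-/

set_option autoImplicit false

namespace Pool.Agent.Lib.MP7ec162

open Finset

variable {N : ℕ}

/-- The number of counters with value at least `k`. -/
def G (c : Fin N → ℤ) (k : ℤ) : ℕ := (univ.filter fun i => k ≤ c i).card

theorem G_sum (c : Fin N → ℤ) (k : ℤ) : G c k = ∑ l, if k ≤ c l then 1 else 0 := by
  unfold G
  rw [Finset.card_filter]

theorem G_sumR (c : Fin N → ℤ) (k : ℤ) : (G c k : ℝ) = ∑ l, if k ≤ c l then (1 : ℝ) else 0 := by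
  rw [G_sum]
  push_cast
  rfl

theorem G_le (c : Fin N → ℤ) (k : ℤ) : G c k ≤ N := by
  unfold G
  exact (Finset.card_filter_le _ _).trans (by simp)

theorem G_anti (c : Fin N → ℤ) {k l : ℤ} (h : k ≤ l) : G c l ≤ G c k := by
  unfold G
  apply Finset.card_le_card
  intro i hi
  simp only [Finset.mem_filter, Finset.mem_univ, true_and] at hi ⊢
  exact h.trans hi

theorem G_top (c : Fin N → ℤ) {k : ℤ} (h : ∀ i, k ≤ c i) : G c k = N := by
  unfold G
  rw [Finset.filter_true_of_mem fun i _ => h i, Finset.card_univ, Fintype.card_fin]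

theorem G_zero (c : Fin N → ℤ) {k : ℤ} (h : ∀ i, c i < k) : G c k = 0 := by
  unfold G
  rw [Finset.filter_false_of_mem fun i _ => not_le.mpr (h i), Finset.card_empty]

theorem G_upd (c : Fin N → ℤ) {i j : Fin N} (hij : i ≠ j) (k : ℤ) :
    G (upd c i j) k = G c k +
      (if k = min (c i) (c j) + 1 then (if c i = c j then 2 else 1) else 0) := by
  have h1 : ∀ l, (if k ≤ upd c i j l then 1 else 0) = (if k ≤ c l then 1 else 0) +
      ((if l = i then (if c i ≤ c j ∧ k = c i + 1 then 1 else 0) else 0) +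
      (if l = j then (if c j ≤ c i ∧ k = c j + 1 then 1 else 0) else 0)) := by
    intro l
    by_cases h1 : l = i
    · have h2 : l ≠ j := by rw [h1]; exact hij
      rw [if_pos h1, if_neg h2, h1]
      by_cases h3 : c i ≤ c j
      · have hu : upd c i j i = c i + 1 := if_pos (Or.inl ⟨rfl, h3⟩)
        rw [hu]
        split_ifs <;> omega
      · have hu : upd c i j i = c i :=
          if_neg fun h => h.elim (fun h => h3 h.2) (fun h => hij h.1)
        rw [hu]
        split_ifs <;> omega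
    · by_cases h2 : l = j
      · rw [if_neg h1, if_pos h2, h2]
        by_cases h3 : c j ≤ c i
        · have hu : upd c i j j = c j + 1 := if_pos (Or.inr ⟨rfl, h3⟩)
          rw [hu]
          split_ifs <;> omega
        · have hu : upd c i j j = c j :=
            if_neg fun h => h.elim (fun h => hij h.1.symm) (fun h => h3 h.2)
          rw [hu]
          split_ifs <;> omega
      · have hu : upd c i j l = c l :=
          if_neg fun h => h.elim (fun h => h1 h.1) (fun h => h2 h.1)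
        rw [if_neg h1, if_neg h2, hu]
        omega
  rw [G_sum, G_sum, Finset.sum_congr rfl fun l _ => h1 l, Finset.sum_add_distrib,
    Finset.sum_add_distrib, Finset.sum_ite_eq', Finset.sum_ite_eq']
  simp only [Finset.mem_univ, if_true]
  rcases lt_trichotomy (c i) (c j) with h | h | h
  · rw [min_eq_left h.le]
    split_ifs <;> omega
  · rw [min_eq_left h.le]
    split_ifs <;> omega
  · rw [min_eq_right h.le]
    split_ifs <;> omega

/-- The level functional with density `Φ`. -/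
noncomputable def lev (Φ : ℕ → ℕ → ℝ) (c : Fin N → ℤ) : ℝ := ∑ᶠ k : ℤ, Φ (G c k) (G c (k + 1))

theorem lev_eq {Φ : ℕ → ℕ → ℝ} (h0 : Φ 0 0 = 0) (hN : Φ N N = 0) (c : Fin N → ℤ) {a b : ℤ}
    (h : ∀ i, a ≤ c i ∧ c i ≤ b) :
    lev Φ c = ∑ k ∈ Finset.Icc a b, Φ (G c k) (G c (k + 1)) := by
  unfold lev
  apply finsum_eq_sum_of_support_subset
  intro k hk
  rw [Function.mem_support] at hk
  rw [Finset.mem_coe, Finset.mem_Icc]
  by_contra hc
  apply hk
  rw [not_and_or] at hc
  rcases hc with hc | hc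
  · rw [G_top c fun i => by have := (h i).1; omega, G_top c fun i => by have := (h i).1; omega]
    exact hN
  · rw [G_zero c fun i => by have := (h i).2; omega, G_zero c fun i => by have := (h i).2; omega]
    exact h0

/-- The change of a level functional. -/
theorem lev_upd {Φ : ℕ → ℕ → ℝ} (h0 : Φ 0 0 = 0) (hN : Φ N N = 0) (c : Fin N → ℤ) {i j : Fin N}
    (hij : i ≠ j) {m : ℤ} {e : ℕ} (hm : m = min (c i) (c j)) (he : e = if c i = c j then 2 else 1)
    {a b : ℤ} (h : ∀ i, a ≤ c i ∧ c i + 1 ≤ b) :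
    lev Φ (upd c i j) - lev Φ c = (Φ (G c m) (G c (m + 1) + e) - Φ (G c m) (G c (m + 1))) +
      (Φ (G c (m + 1) + e) (G c (m + 2)) - Φ (G c (m + 1)) (G c (m + 2))) := by
  have hu : ∀ l, a ≤ upd c i j l ∧ upd c i j l ≤ b := by
    intro l
    have := h l
    unfold upd
    split_ifs <;> omega
  rw [lev_eq h0 hN (upd c i j) hu,
    lev_eq h0 hN c (a := a) (b := b) fun l => ⟨(h l).1, by have := (h l).2; omega⟩,
    ← Finset.sum_sub_distrib]
  have hG : ∀ k, G (upd c i j) k = G c k + (if k = m + 1 then e else 0) := by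
    intro k
    rw [G_upd c hij k, hm, he]
  have h1 : ∀ k, Φ (G (upd c i j) k) (G (upd c i j) (k + 1)) - Φ (G c k) (G c (k + 1)) =
      (if k = m then (Φ (G c m) (G c (m + 1) + e) - Φ (G c m) (G c (m + 1))) else 0) +
      (if k = m + 1 then (Φ (G c (m + 1) + e) (G c (m + 2)) - Φ (G c (m + 1)) (G c (m + 2)))
        else 0) := by
    intro k
    rw [hG, hG]
    by_cases h1 : k = m
    · rw [h1, if_neg (by omega), if_pos rfl, if_pos rfl, if_neg (by omega), add_zero, add_zero]
    · by_cases h2 : k = m + 1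
      · rw [h2, if_pos rfl, if_neg (by omega), if_neg (by omega), if_pos rfl, zero_add, add_zero]
        have : m + 1 + 1 = m + 2 := by ring
        rw [this]
      · rw [if_neg h2, if_neg (by omega), if_neg h1, if_neg h2, add_zero, add_zero]
        ring
  rw [Finset.sum_congr rfl fun k _ => h1 k, Finset.sum_add_distrib, Finset.sum_ite_eq',
    Finset.sum_ite_eq']
  have hmi := h i
  have hmj := h j
  have hma : a ≤ m := by rw [hm]; exact le_min hmi.1 hmj.1
  have hmb : m + 1 ≤ b := by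
    have : m ≤ c i := by rw [hm]; exact min_le_left _ _
    omega
  rw [if_pos (Finset.mem_Icc.mpr ⟨hma, by omega⟩), if_pos (Finset.mem_Icc.mpr ⟨by omega, hmb⟩)]

theorem tot_upd (c : Fin N → ℤ) {i j : Fin N} (hij : i ≠ j) :
    tot (upd c i j) - tot c = if c i = c j then 2 else 1 := by
  unfold tot
  rw [Finset.sum_congr rfl fun k _ => upd_cast c hij k, Finset.sum_add_distrib,
    Finset.sum_add_distrib, Finset.sum_ite_eq', Finset.sum_ite_eq']
  simp only [Finset.mem_univ, if_true]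
  rcases lt_trichotomy (c i) (c j) with h | h | h
  · rw [if_pos h.le, if_neg (not_le.mpr h), if_neg h.ne]
    ring
  · rw [if_pos h.le, if_pos h.ge, if_pos h]
    ring
  · rw [if_neg (not_le.mpr h), if_pos h.le, if_neg h.ne']
    ring

theorem count_lt (c : Fin N → ℤ) (f : ℤ → ℝ) :
    ∑ p ∈ (univ : Finset (Fin N)).offDiag, (if c p.1 < c p.2 then f (c p.1) else 0) =
      ∑ i, f (c i) * G c (c i + 1) := by
  rw [sum_off (fun i j => if c i < c j then f (c i) else 0)]
  have h1 : ∑ i, (if c i < c i then f (c i) else 0) = 0 := by simp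
  rw [h1, sub_zero]
  refine Finset.sum_congr rfl fun i _ => ?_
  rw [G_sumR, Finset.mul_sum]
  refine Finset.sum_congr rfl fun j _ => ?_
  by_cases h : c i < c j
  · rw [if_pos h, if_pos (by omega), mul_one]
  · rw [if_neg h, if_neg (by omega), mul_zero]

theorem count_at (c : Fin N → ℤ) (k : ℤ) :
    ∑ j, (if c j = k then (1 : ℝ) else 0) = G c k - G c (k + 1) := by
  rw [G_sumR, G_sumR, ← Finset.sum_sub_distrib]
  refine Finset.sum_congr rfl fun j _ => ?_
  by_cases h : c j = k
  · rw [if_pos h, if_pos (by omega), if_neg (by omega)]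
    ring
  · rw [if_neg h]
    by_cases h2 : k ≤ c j
    · rw [if_pos h2, if_pos (by omega)]
      ring
    · rw [if_neg h2, if_neg (by omega)]
      ring

theorem count_eq (c : Fin N → ℤ) (f : ℤ → ℝ) :
    ∑ p ∈ (univ : Finset (Fin N)).offDiag, (if c p.1 = c p.2 then f (c p.1) else 0) =
      ∑ i, f (c i) * ((G c (c i) : ℝ) - G c (c i + 1) - 1) := by
  rw [sum_off (fun i j => if c i = c j then f (c i) else 0), ← Finset.sum_sub_distrib]
  refine Finset.sum_congr rfl fun i _ => ?_
  rw [← count_at c (c i), if_pos rfl]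
  have : ∑ j, (if c i = c j then f (c i) else 0) = f (c i) * ∑ j, (if c j = c i then (1 : ℝ) else 0) := by
    rw [Finset.mul_sum]
    refine Finset.sum_congr rfl fun j _ => ?_
    by_cases h : c i = c j
    · rw [if_pos h, if_pos h.symm, mul_one]
    · rw [if_neg h, if_neg (fun h' => h h'.symm), mul_zero]
  rw [this]
  ring

theorem sum_levels (c : Fin N → ℤ) (f : ℤ → ℝ) {a b : ℤ} (h : ∀ i, a ≤ c i ∧ c i ≤ b) :
    ∑ i, f (c i) = ∑ k ∈ Finset.Icc a b, ((G c k : ℝ) - G c (k + 1)) * f k := by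
  have h1 : ∀ i, f (c i) = ∑ k ∈ Finset.Icc a b, (if c i = k then (1 : ℝ) else 0) * f k := by
    intro i
    have : ∀ k ∈ Finset.Icc a b, (if c i = k then (1 : ℝ) else 0) * f k =
        if c i = k then f k else 0 := by
      intro k _
      split_ifs <;> ring
    rw [Finset.sum_congr rfl this, Finset.sum_ite_eq, if_pos (Finset.mem_Icc.mpr (h i))]
  rw [Finset.sum_congr rfl fun i _ => h1 i, Finset.sum_comm]
  refine Finset.sum_congr rfl fun k _ => ?_
  rw [← Finset.sum_mul, count_at]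

/-- The local cost of a level functional: `r`, `q`, `p` are the numbers of counters at or above three
consecutive levels. -/
def cost (Φ : ℕ → ℕ → ℝ) (p q r : ℕ) : ℝ :=
  2 * ((r : ℝ) - q) * q * (1 + (Φ r (q + 1) - Φ r q) + (Φ (q + 1) p - Φ q p)) +
    ((r : ℝ) - q) * ((r : ℝ) - q - 1) * (2 + (Φ r (q + 2) - Φ r q) + (Φ (q + 2) p - Φ q p))

/-- The drift identity. -/
theorem drift {Φ : ℕ → ℕ → ℝ} (h0 : Φ 0 0 = 0) (hN : Φ N N = 0) (c : Fin N → ℤ) {a b : ℤ}
    (h : ∀ i, a ≤ c i ∧ c i + 1 ≤ b) :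
    ∑ p ∈ (univ : Finset (Fin N)).offDiag, ((tot (upd c p.1 p.2) + lev Φ (upd c p.1 p.2)) -
      (tot c + lev Φ c)) =
      ∑ k ∈ Finset.Icc a b, cost Φ (G c (k + 2)) (G c (k + 1)) (G c k) := by
  set R : ℕ → ℤ → ℝ := fun e m => (e : ℝ) + (Φ (G c m) (G c (m + 1) + e) - Φ (G c m) (G c (m + 1))) +
      (Φ (G c (m + 1) + e) (G c (m + 2)) - Φ (G c (m + 1)) (G c (m + 2))) with hR
  have h1 : ∀ p ∈ (univ : Finset (Fin N)).offDiag, ((tot (upd c p.1 p.2) + lev Φ (upd c p.1 p.2)) -
      (tot c + lev Φ c)) = (if c p.1 < c p.2 then R 1 (c p.1) else 0) +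
      (if c p.2 < c p.1 then R 1 (c p.2) else 0) + (if c p.1 = c p.2 then R 2 (c p.1) else 0) := by
    intro p hp
    have hp' := (Finset.mem_offDiag.mp hp).2.2
    have ht := tot_upd c hp'
    rcases lt_trichotomy (c p.1) (c p.2) with h1 | h1 | h1
    · have hl := lev_upd h0 hN c hp' (m := c p.1) (e := 1) (min_eq_left h1.le).symm
        (by rw [if_neg h1.ne]) h
      rw [if_neg h1.ne] at ht
      rw [if_pos h1, if_neg (not_lt.mpr h1.le), if_neg h1.ne]
      simp only [hR]
      push_cast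
      linarith
    · have hl := lev_upd h0 hN c hp' (m := c p.1) (e := 2) (min_eq_left h1.le).symm
        (by rw [if_pos h1]) h
      rw [if_pos h1] at ht
      rw [if_neg (not_lt.mpr h1.ge), if_neg (not_lt.mpr h1.le), if_pos h1]
      simp only [hR]
      push_cast
      linarith
    · have hl := lev_upd h0 hN c hp' (m := c p.2) (e := 1) (min_eq_right h1.le).symm
        (by rw [if_neg h1.ne']) h
      rw [if_neg h1.ne'] at ht
      rw [if_neg (not_lt.mpr h1.le), if_pos h1, if_neg h1.ne']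
      simp only [hR]
      push_cast
      linarith
  rw [Finset.sum_congr rfl h1, Finset.sum_add_distrib, Finset.sum_add_distrib,
    sum_swap (fun i j => if c i < c j then R 1 (c i) else 0), count_lt, count_eq,
    ← Finset.sum_add_distrib, ← Finset.sum_add_distrib]
  rw [sum_levels c (fun k => R 1 k * (G c (k + 1) : ℝ) + R 1 k * (G c (k + 1) : ℝ) +
    R 2 k * ((G c k : ℝ) - G c (k + 1) - 1)) (a := a) (b := b)
    fun i => ⟨(h i).1, by have := (h i).2; omega⟩]
  refine Finset.sum_congr rfl fun k _ => ?_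
  simp only [hR]
  unfold cost
  push_cast
  ring

theorem telescope (w : ℤ → ℝ) {a b : ℤ} (hab : a ≤ b) :
    ∑ k ∈ Finset.Icc a b, (w k - w (k + 1)) = w a - w (b + 1) := by
  induction b, hab using Int.leInduction with
  | base => simp
  | succ n hn ih =>
    have : Finset.Icc a (n + 1) = insert (n + 1) (Finset.Icc a n) := by
      ext x
      simp only [Finset.mem_insert, Finset.mem_Icc]
      omega
    rw [this, Finset.sum_insert (by simp), ih]
    ring

/-- The invariant set: no level is reached by exactly one counter. -/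
def Inv (c : Fin N → ℤ) : Prop := ∀ k, G c k ≠ 1

theorem inv_upd (c : Fin N → ℤ) (i j : Fin N) (hij : i ≠ j) (hc : Inv c) : Inv (upd c i j) := by
  intro k
  rw [G_upd c hij k]
  by_cases hk : k = min (c i) (c j) + 1
  · rw [if_pos hk]
    by_cases h : c i = c j
    · rw [if_pos h]
      omega
    · rw [if_neg h]
      have h1 : 0 < G c k := by
        unfold G
        rw [Finset.card_pos]
        rcases lt_or_gt_of_ne h with h2 | h2
        · refine ⟨j, ?_⟩
          simp only [Finset.mem_filter, Finset.mem_univ, true_and]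
          rw [hk, min_eq_left h2.le]
          omega
        · refine ⟨i, ?_⟩
          simp only [Finset.mem_filter, Finset.mem_univ, true_and]
          rw [hk, min_eq_right h2.le]
          omega
      omega
  · rw [if_neg hk]
    exact hc k

theorem inv_zero (hN : 2 ≤ N) : Inv (fun _ : Fin N => (0 : ℤ)) := by
  intro k
  by_cases hk : k ≤ 0
  · rw [G_top _ fun _ => hk]
    omega
  · rw [G_zero _ fun _ => by omega]
    omega

theorem exists_window (hN : 2 ≤ N) (c : Fin N → ℤ) : ∃ i j : Fin N, ∀ k, c i ≤ c k ∧ c k ≤ c j := by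
  have : Nonempty (Fin N) := ⟨⟨0, by omega⟩⟩
  obtain ⟨i, _, hi⟩ := Finset.exists_min_image (univ : Finset (Fin N)) c Finset.univ_nonempty
  obtain ⟨j, _, hj⟩ := Finset.exists_max_image (univ : Finset (Fin N)) c Finset.univ_nonempty
  exact ⟨i, j, fun k => ⟨hi k (Finset.mem_univ _), hj k (Finset.mem_univ _)⟩⟩

theorem lev_bound (hN : 2 ≤ N) {Φ : ℕ → ℕ → ℝ} (h0 : Φ 0 0 = 0) (hNN : Φ N N = 0) :
    ∀ ε : ℝ, 0 < ε → ∃ B : ℝ, ∀ c : Fin N → ℤ, |lev Φ c| ≤ ε * Q c + B := by
  intro ε hε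
  obtain ⟨M, hM0, hM⟩ : ∃ M : ℝ, 0 ≤ M ∧ ∀ x y : ℕ, x ≤ N → y ≤ N → |Φ x y| ≤ M := by
    refine ⟨∑ x ∈ Finset.range (N + 1), ∑ y ∈ Finset.range (N + 1), |Φ x y|,
      Finset.sum_nonneg fun _ _ => Finset.sum_nonneg fun _ _ => abs_nonneg _, fun x y hx hy => ?_⟩
    have h1 : |Φ x y| ≤ ∑ y ∈ Finset.range (N + 1), |Φ x y| :=
      Finset.single_le_sum (f := fun y => |Φ x y|) (fun _ _ => abs_nonneg _)
        (Finset.mem_range.mpr (by omega))
    have h2 : ∑ y ∈ Finset.range (N + 1), |Φ x y| ≤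
        ∑ x ∈ Finset.range (N + 1), ∑ y ∈ Finset.range (N + 1), |Φ x y| :=
      Finset.single_le_sum (f := fun x => ∑ y ∈ Finset.range (N + 1), |Φ x y|)
        (fun _ _ => Finset.sum_nonneg fun _ _ => abs_nonneg _) (Finset.mem_range.mpr (by omega))
    exact h1.trans h2
  refine ⟨M ^ 2 / ε + M, fun c => ?_⟩
  obtain ⟨i, j, hw⟩ := exists_window hN c
  rw [lev_eq h0 hNN c hw]
  have h1 : |∑ k ∈ Finset.Icc (c i) (c j), Φ (G c k) (G c (k + 1))| ≤
      ∑ k ∈ Finset.Icc (c i) (c j), M :=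
    (Finset.abs_sum_le_sum_abs _ _).trans
      (Finset.sum_le_sum fun k _ => hM _ _ (G_le c _) (G_le c _))
  rw [Finset.sum_const, nsmul_eq_mul, Int.card_Icc] at h1
  have hij : c i ≤ c j := (hw j).1
  have h2 : (((c j + 1 - c i).toNat : ℕ) : ℝ) = (c j : ℝ) + 1 - c i := by
    have : (((c j + 1 - c i).toNat : ℕ) : ℤ) = c j + 1 - c i := Int.toNat_of_nonneg (by omega)
    have h3 : ((((c j + 1 - c i).toNat : ℕ) : ℤ) : ℝ) = ((c j + 1 - c i : ℤ) : ℝ) := by rw [this]
    push_cast at h3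
    exact h3
  rw [h2] at h1
  have h3 : ((c j : ℝ) - c i) ^ 2 ≤ Q c := by
    unfold Q
    have h4 : ((c j : ℝ) - c i) ^ 2 ≤ ∑ l, ((c j : ℝ) - c l) ^ 2 :=
      Finset.single_le_sum (f := fun l => ((c j : ℝ) - c l) ^ 2) (fun _ _ => sq_nonneg _)
        (Finset.mem_univ i)
    have h5 : ∑ l, ((c j : ℝ) - c l) ^ 2 ≤ ∑ m, ∑ l, ((c m : ℝ) - c l) ^ 2 :=
      Finset.single_le_sum (f := fun m => ∑ l, ((c m : ℝ) - c l) ^ 2)
        (fun _ _ => Finset.sum_nonneg fun _ _ => sq_nonneg _) (Finset.mem_univ j)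
    exact h4.trans h5
  set s : ℝ := (c j : ℝ) - c i with hs
  have h6 : ((c j : ℝ) + 1 - c i) * M = s * M + M := by rw [hs]; ring
  rw [h6] at h1
  have h7 : s * M ≤ ε * s ^ 2 + M ^ 2 / ε := by
    have h8 : 0 ≤ (ε * s - M / 2) ^ 2 / ε := by positivity
    have h9 : (ε * s - M / 2) ^ 2 / ε = ε * s ^ 2 - s * M + M ^ 2 / ε / 4 := by
      field_simp
      ring
    have h10 : 0 ≤ M ^ 2 / ε := by positivity
    linarith
  have h8 : ε * s ^ 2 ≤ ε * Q c := mul_le_mul_of_nonneg_left h3 hε.le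
  linarith

/-- The upper certificate. -/
theorem cert_upper (hN : 2 ≤ N) {Φ W : ℕ → ℕ → ℝ} {v : ℝ} (h0 : Φ 0 0 = 0) (hNN : Φ N N = 0)
    (hW0 : W 0 0 = 0) (hWN : W N N ≤ v * ((N : ℝ) * (N - 1)))
    (hc : ∀ p q r : ℕ, p ≤ q → q ≤ r → r ≤ N → p ≠ 1 → q ≠ 1 → r ≠ 1 →
      W q p + cost Φ p q r ≤ W r q) {V : ℝ} (hV : IsSpeed N V) : V ≤ v := by
  refine speed_le hV (fun _ => 0) (upper_of_drift hN inv_upd (h := lev Φ) (lev_bound hN h0 hNN)
    ?_ _ (inv_zero hN))
  intro c hI
  apply step_le_of_sum hN (F := fun x => tot x + lev Φ x)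
  obtain ⟨i, j, hw⟩ := exists_window hN c
  have hij : c i ≤ c j := (hw j).1
  rw [drift h0 hNN c (a := c i - 1) (b := c j + 1) fun k => ⟨by have := (hw k).1; omega,
    by have := (hw k).2; omega⟩]
  have h1 : ∀ k ∈ Finset.Icc (c i - 1) (c j + 1), cost Φ (G c (k + 2)) (G c (k + 1)) (G c k) ≤
      W (G c k) (G c (k + 1)) - W (G c (k + 1)) (G c (k + 1 + 1)) := by
    intro k _
    have h2 : k + 1 + 1 = k + 2 := by ring
    rw [h2]
    have := hc (G c (k + 2)) (G c (k + 1)) (G c k) (G_anti c (by omega)) (G_anti c (by omega))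
      (G_le c k) (hI _) (hI _) (hI _)
    linarith
  refine (Finset.sum_le_sum h1).trans ?_
  rw [telescope (fun k => W (G c k) (G c (k + 1))) (by omega : c i - 1 ≤ c j + 1)]
  rw [G_top c (k := c i - 1) fun k => by have := (hw k).1; omega,
    G_top c (k := c i - 1 + 1) fun k => by have := (hw k).1; omega,
    G_zero c (k := c j + 1 + 1) fun k => by have := (hw k).2; omega,
    G_zero c (k := c j + 1 + 1 + 1) fun k => by have := (hw k).2; omega, hW0, sub_zero]
  exact hWN

/-- The lower certificate. -/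
theorem cert_lower (hN : 2 ≤ N) {Φ W : ℕ → ℕ → ℝ} {v : ℝ} (h0 : Φ 0 0 = 0) (hNN : Φ N N = 0)
    (hW0 : W 0 0 = 0) (hWN : v * ((N : ℝ) * (N - 1)) ≤ W N N)
    (hc : ∀ p q r : ℕ, p ≤ q → q ≤ r → r ≤ N → p ≠ 1 → q ≠ 1 → r ≠ 1 →
      W r q ≤ W q p + cost Φ p q r) {V : ℝ} (hV : IsSpeed N V) : v ≤ V := by
  refine le_speed hV (fun _ => 0) (lower_of_drift hN inv_upd (h := lev Φ) (lev_bound hN h0 hNN)
    ?_ _ (inv_zero hN))
  intro c hI
  apply le_step_of_sum hN (F := fun x => tot x + lev Φ x)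
  obtain ⟨i, j, hw⟩ := exists_window hN c
  have hij : c i ≤ c j := (hw j).1
  rw [drift h0 hNN c (a := c i - 1) (b := c j + 1) fun k => ⟨by have := (hw k).1; omega,
    by have := (hw k).2; omega⟩]
  have h1 : ∀ k ∈ Finset.Icc (c i - 1) (c j + 1),
      W (G c k) (G c (k + 1)) - W (G c (k + 1)) (G c (k + 1 + 1)) ≤
      cost Φ (G c (k + 2)) (G c (k + 1)) (G c k) := by
    intro k _
    have h2 : k + 1 + 1 = k + 2 := by ring
    rw [h2]
    have := hc (G c (k + 2)) (G c (k + 1)) (G c k) (G_anti c (by omega)) (G_anti c (by omega))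
      (G_le c k) (hI _) (hI _) (hI _)
    linarith
  refine le_trans ?_ (Finset.sum_le_sum h1)
  rw [telescope (fun k => W (G c k) (G c (k + 1))) (by omega : c i - 1 ≤ c j + 1)]
  rw [G_top c (k := c i - 1) fun k => by have := (hw k).1; omega,
    G_top c (k := c i - 1 + 1) fun k => by have := (hw k).1; omega,
    G_zero c (k := c j + 1 + 1) fun k => by have := (hw k).2; omega,
    G_zero c (k := c j + 1 + 1 + 1) fun k => by have := (hw k).2; omega, hW0, sub_zero]
  exact hWN

end Pool.Agent.Lib.MP7ec162
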