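import Pool.Agent.Lib.MP_7ec162_pr.Levels

/-!
# Level functionals with three consecutive levels (MP_7ec162_pr)
-/

set_option autoImplicit false

namespace Pool.Agent.Lib.MP7ec162

open Finset

variable {N : ℕ}

/-- The level functional with density `Φ`, a function of three consecutive levels. -/
noncomputable def levB (Φ : ℕ → ℕ → ℕ → ℝ) (c : Fin N → ℤ) : ℝ :=
  ∑ᶠ k : ℤ, Φ (G c k) (G c (k + 1)) (G c (k + 2))

theorem levB_eq {Φ : ℕ → ℕ → ℕ → ℝ} (h0 : Φ 0 0 0 = 0) (hN : Φ N N N = 0) (c : Fin N → ℤ) {a b : ℤ}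
    (h : ∀ i, a + 1 ≤ c i ∧ c i ≤ b) :
    levB Φ c = ∑ k ∈ Finset.Icc a b, Φ (G c k) (G c (k + 1)) (G c (k + 2)) := by
  unfold levB
  apply finsum_eq_sum_of_support_subset
  intro k hk
  rw [Function.mem_support] at hk
  rw [Finset.mem_coe, Finset.mem_Icc]
  by_contra hc
  apply hk
  rw [not_and_or] at hc
  rcases hc with hc | hc
  · rw [G_top c fun i => by have := (h i).1; omega, G_top c fun i => by have := (h i).1; omega,
      G_top c fun i => by have := (h i).1; omega]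
    exact hN
  · rw [G_zero c fun i => by have := (h i).2; omega, G_zero c fun i => by have := (h i).2; omega,
      G_zero c fun i => by have := (h i).2; omega]
    exact h0

/-- The change of a level functional. -/
theorem levB_upd {Φ : ℕ → ℕ → ℕ → ℝ} (h0 : Φ 0 0 0 = 0) (hN : Φ N N N = 0) (c : Fin N → ℤ)
    {i j : Fin N} (hij : i ≠ j) {m : ℤ} {e : ℕ} (hm : m = min (c i) (c j))
    (he : e = if c i = c j then 2 else 1) {a b : ℤ} (h : ∀ i, a + 1 ≤ c i ∧ c i + 1 ≤ b) :
    levB Φ (upd c i j) - levB Φ c =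
      (Φ (G c (m - 1)) (G c m) (G c (m + 1) + e) - Φ (G c (m - 1)) (G c m) (G c (m + 1))) +
      (Φ (G c m) (G c (m + 1) + e) (G c (m + 2)) - Φ (G c m) (G c (m + 1)) (G c (m + 2))) +
      (Φ (G c (m + 1) + e) (G c (m + 2)) (G c (m + 3)) -
        Φ (G c (m + 1)) (G c (m + 2)) (G c (m + 3))) := by
  have hu : ∀ l, a + 1 ≤ upd c i j l ∧ upd c i j l ≤ b := by
    intro l
    have := h l
    unfold upd
    split_ifs <;> omega
  rw [levB_eq h0 hN (upd c i j) hu,
    levB_eq h0 hN c (a := a) (b := b) fun l => ⟨(h l).1, by have := (h l).2; omega⟩,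
    ← Finset.sum_sub_distrib]
  have hG : ∀ k, G (upd c i j) k = G c k + (if k = m + 1 then e else 0) := by
    intro k
    rw [G_upd c hij k, hm, he]
  have h1 : ∀ k, Φ (G (upd c i j) k) (G (upd c i j) (k + 1)) (G (upd c i j) (k + 2)) -
      Φ (G c k) (G c (k + 1)) (G c (k + 2)) =
      (if k = m - 1 then (Φ (G c (m - 1)) (G c m) (G c (m + 1) + e) -
        Φ (G c (m - 1)) (G c m) (G c (m + 1))) else 0) +
      (if k = m then (Φ (G c m) (G c (m + 1) + e) (G c (m + 2)) -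
        Φ (G c m) (G c (m + 1)) (G c (m + 2))) else 0) +
      (if k = m + 1 then (Φ (G c (m + 1) + e) (G c (m + 2)) (G c (m + 3)) -
        Φ (G c (m + 1)) (G c (m + 2)) (G c (m + 3))) else 0) := by
    intro k
    rw [hG, hG, hG]
    by_cases h0 : k = m - 1
    · rw [h0, if_neg (by omega), if_neg (by omega), if_pos (by omega), if_pos rfl,
        if_neg (by omega), if_neg (by omega), add_zero, add_zero, add_zero, add_zero]
      have e1 : m - 1 + 1 = m := by ring
      have e2 : m - 1 + 2 = m + 1 := by ring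
      rw [e1, e2]
    · by_cases h1 : k = m
      · rw [h1, if_neg (by omega), if_pos rfl, if_neg (by omega), if_neg (by omega), if_pos rfl,
          if_neg (by omega), add_zero, add_zero, add_zero, zero_add]
      · by_cases h2 : k = m + 1
        · rw [h2, if_pos rfl, if_neg (by omega), if_neg (by omega), if_neg (by omega),
            if_neg (by omega), if_pos rfl, zero_add, add_zero, add_zero, zero_add]
          have e1 : m + 1 + 1 = m + 2 := by ring
          have e2 : m + 1 + 2 = m + 3 := by ring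
          rw [e1, e2]
        · rw [if_neg h2, if_neg (by omega), if_neg (by omega), if_neg h0, if_neg h1, if_neg h2,
            add_zero, add_zero, add_zero]
          ring
  rw [Finset.sum_congr rfl fun k _ => h1 k, Finset.sum_add_distrib, Finset.sum_add_distrib,
    Finset.sum_ite_eq', Finset.sum_ite_eq', Finset.sum_ite_eq']
  have hmi := h i
  have hmj := h j
  have hma : a + 1 ≤ m := by rw [hm]; exact le_min hmi.1 hmj.1
  have hmb : m + 1 ≤ b := by
    have : m ≤ c i := by rw [hm]; exact min_le_left _ _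
    omega
  rw [if_pos (Finset.mem_Icc.mpr ⟨by omega, by omega⟩),
    if_pos (Finset.mem_Icc.mpr ⟨by omega, by omega⟩), if_pos (Finset.mem_Icc.mpr ⟨by omega, hmb⟩)]

/-- The local cost: `s`, `r`, `q`, `p`, `o` are the numbers of counters at or above five
consecutive levels. -/
def costB (Φ : ℕ → ℕ → ℕ → ℝ) (o p q r s : ℕ) : ℝ :=
  2 * ((r : ℝ) - q) * q * (1 + (Φ s r (q + 1) - Φ s r q) + (Φ r (q + 1) p - Φ r q p) +
      (Φ (q + 1) p o - Φ q p o)) +
    ((r : ℝ) - q) * ((r : ℝ) - q - 1) * (2 + (Φ s r (q + 2) - Φ s r q) +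
      (Φ r (q + 2) p - Φ r q p) + (Φ (q + 2) p o - Φ q p o))

/-- The drift identity. -/
theorem driftB {Φ : ℕ → ℕ → ℕ → ℝ} (h0 : Φ 0 0 0 = 0) (hN : Φ N N N = 0) (c : Fin N → ℤ) {a b : ℤ}
    (h : ∀ i, a + 1 ≤ c i ∧ c i + 1 ≤ b) :
    ∑ p ∈ (univ : Finset (Fin N)).offDiag, ((tot (upd c p.1 p.2) + levB Φ (upd c p.1 p.2)) -
      (tot c + levB Φ c)) =
      ∑ k ∈ Finset.Icc a b, costB Φ (G c (k + 3)) (G c (k + 2)) (G c (k + 1)) (G c k)
        (G c (k - 1)) := by
  set R : ℕ → ℤ → ℝ := fun e m => (e : ℝ) +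
      (Φ (G c (m - 1)) (G c m) (G c (m + 1) + e) - Φ (G c (m - 1)) (G c m) (G c (m + 1))) +
      (Φ (G c m) (G c (m + 1) + e) (G c (m + 2)) - Φ (G c m) (G c (m + 1)) (G c (m + 2))) +
      (Φ (G c (m + 1) + e) (G c (m + 2)) (G c (m + 3)) -
        Φ (G c (m + 1)) (G c (m + 2)) (G c (m + 3))) with hR
  have h1 : ∀ p ∈ (univ : Finset (Fin N)).offDiag, ((tot (upd c p.1 p.2) + levB Φ (upd c p.1 p.2)) -
      (tot c + levB Φ c)) = (if c p.1 < c p.2 then R 1 (c p.1) else 0) +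
      (if c p.2 < c p.1 then R 1 (c p.2) else 0) + (if c p.1 = c p.2 then R 2 (c p.1) else 0) := by
    intro p hp
    have hp' := (Finset.mem_offDiag.mp hp).2.2
    have ht := tot_upd c hp'
    rcases lt_trichotomy (c p.1) (c p.2) with h1 | h1 | h1
    · have hl := levB_upd h0 hN c hp' (m := c p.1) (e := 1) (min_eq_left h1.le).symm
        (by rw [if_neg h1.ne]) h
      rw [if_neg h1.ne] at ht
      rw [if_pos h1, if_neg (not_lt.mpr h1.le), if_neg h1.ne]
      simp only [hR]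
      push_cast
      linarith
    · have hl := levB_upd h0 hN c hp' (m := c p.1) (e := 2) (min_eq_left h1.le).symm
        (by rw [if_pos h1]) h
      rw [if_pos h1] at ht
      rw [if_neg (not_lt.mpr h1.ge), if_neg (not_lt.mpr h1.le), if_pos h1]
      simp only [hR]
      push_cast
      linarith
    · have hl := levB_upd h0 hN c hp' (m := c p.2) (e := 1) (min_eq_right h1.le).symm
        (by rw [if_neg h1.ne']) h
      rw [if_neg h1.ne'] at ht
      rw [if_neg (not_lt.mpr h1.le), if_pos h1, if_neg h1.ne']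
      simp only [hR]
      push_cast
      linarith
  rw [Finset.sum_congr rfl h1, Finset.sum_add_distrib, Finset.sum_add_distrib,
    sum_swap (fun i j => if c i < c j then R 1 (c i) else 0), count_lt, count_eq,
    ← Finset.sum_add_distrib, ← Finset.sum_add_distrib]
  rw [sum_levels c (fun k => R 1 k * (G c (k + 1) : ℝ) + R 1 k * (G c (k + 1) : ℝ) +
    R 2 k * ((G c k : ℝ) - G c (k + 1) - 1)) (a := a) (b := b)
    fun i => ⟨by have := (h i).1; omega, by have := (h i).2; omega⟩]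
  refine Finset.sum_congr rfl fun k _ => ?_
  simp only [hR]
  unfold costB
  push_cast
  ring

theorem levB_bound (hN : 2 ≤ N) {Φ : ℕ → ℕ → ℕ → ℝ} (h0 : Φ 0 0 0 = 0) (hNN : Φ N N N = 0) :
    ∀ ε : ℝ, 0 < ε → ∃ B : ℝ, ∀ c : Fin N → ℤ, |levB Φ c| ≤ ε * Q c + B := by
  intro ε hε
  obtain ⟨M, hM0, hM⟩ : ∃ M : ℝ, 0 ≤ M ∧ ∀ x y z : ℕ, x ≤ N → y ≤ N → z ≤ N → |Φ x y z| ≤ M := by
    refine ⟨∑ t ∈ (Finset.range (N + 1) ×ˢ Finset.range (N + 1) ×ˢ Finset.range (N + 1)),
      |Φ t.1 t.2.1 t.2.2|, Finset.sum_nonneg fun _ _ => abs_nonneg _, fun x y z hx hy hz => ?_⟩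
    exact Finset.single_le_sum (f := fun t : ℕ × ℕ × ℕ => |Φ t.1 t.2.1 t.2.2|)
      (fun _ _ => abs_nonneg _) (a := (x, y, z)) (by
        simp only [Finset.mem_product, Finset.mem_range]
        omega)
  refine ⟨M ^ 2 / ε + 2 * M, fun c => ?_⟩
  obtain ⟨i, j, hw⟩ := exists_window hN c
  rw [levB_eq h0 hNN c (a := c i - 1) (b := c j) fun k => ⟨by have := (hw k).1; omega, (hw k).2⟩]
  have h1 : |∑ k ∈ Finset.Icc (c i - 1) (c j), Φ (G c k) (G c (k + 1)) (G c (k + 2))| ≤
      ∑ k ∈ Finset.Icc (c i - 1) (c j), M :=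
    (Finset.abs_sum_le_sum_abs _ _).trans
      (Finset.sum_le_sum fun k _ => hM _ _ _ (G_le c _) (G_le c _) (G_le c _))
  rw [Finset.sum_const, nsmul_eq_mul, Int.card_Icc] at h1
  have hij : c i ≤ c j := (hw j).1
  have h2 : (((c j + 1 - (c i - 1)).toNat : ℕ) : ℝ) = (c j : ℝ) - c i + 2 := by
    have : (((c j + 1 - (c i - 1)).toNat : ℕ) : ℤ) = c j + 1 - (c i - 1) :=
      Int.toNat_of_nonneg (by omega)
    have h3 : ((((c j + 1 - (c i - 1)).toNat : ℕ) : ℤ) : ℝ) = ((c j + 1 - (c i - 1) : ℤ) : ℝ) := by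
      rw [this]
    push_cast at h3
    rw [h3]
    ring
  rw [h2] at h1
  have h3 : ((c j : ℝ) - c i) ^ 2 ≤ Q c := by
    unfold Q
    have h4 : ((c j : ℝ) - c i) ^ 2 ≤ ∑ l, ((c j : ℝ) - c l) ^ 2 :=
      Finset.single_le_sum (f := fun l => ((c j : ℝ) - c l) ^ 2) (fun _ _ => sq_nonneg _)
        (Finset.mem_univ i)
    have h5 : ∑ l, ((c j : ℝ) - c l) ^ 2 ≤ ∑ m, ∑ l, ((c m : ℝ) - c l) ^ 2 :=
      Finset.single_le_sum (f := fun m => ∑ l, ((c m : ℝ) - c l) ^ 2)
        (fun _ _ => Finset.sum_nonneg fun _ _ => sq_nonneg _) (Finset.mem_univ j)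
    exact h4.trans h5
  set s : ℝ := (c j : ℝ) - c i with hs
  have h6 : (s + 2) * M = s * M + 2 * M := by ring
  rw [h6] at h1
  have h7 : s * M ≤ ε * s ^ 2 + M ^ 2 / ε := by
    have h8 : 0 ≤ (ε * s - M / 2) ^ 2 / ε := by positivity
    have h9 : (ε * s - M / 2) ^ 2 / ε = ε * s ^ 2 - s * M + M ^ 2 / ε / 4 := by
      field_simp
      ring
    have h10 : 0 ≤ M ^ 2 / ε := by positivity
    linarith
  have h8 : ε * s ^ 2 ≤ ε * Q c := mul_le_mul_of_nonneg_left h3 hε.le
  linarith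

/-- The upper certificate. -/
theorem certB_upper (hN : 2 ≤ N) {Φ : ℕ → ℕ → ℕ → ℝ} {W : ℕ → ℕ → ℕ → ℕ → ℝ} {v : ℝ}
    (h0 : Φ 0 0 0 = 0) (hNN : Φ N N N = 0)
    (hW0 : W 0 0 0 0 = 0) (hWN : W N N N N ≤ v * ((N : ℝ) * (N - 1)))
    (hc : ∀ o p q r s : ℕ, o ≤ p → p ≤ q → q ≤ r → r ≤ s → s ≤ N → o ≠ 1 → p ≠ 1 → q ≠ 1 → r ≠ 1 →
      s ≠ 1 → W r q p o + costB Φ o p q r s ≤ W s r q p) {V : ℝ} (hV : IsSpeed N V) : V ≤ v := by
  refine speed_le hV (fun _ => 0) (upper_of_drift hN inv_upd (h := levB Φ) (levB_bound hN h0 hNN)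
    ?_ _ (inv_zero hN))
  intro c hI
  apply step_le_of_sum hN (F := fun x => tot x + levB Φ x)
  obtain ⟨i, j, hw⟩ := exists_window hN c
  have hij : c i ≤ c j := (hw j).1
  rw [driftB h0 hNN c (a := c i - 2) (b := c j + 1) fun k => ⟨by have := (hw k).1; omega,
    by have := (hw k).2; omega⟩]
  have h1 : ∀ k ∈ Finset.Icc (c i - 2) (c j + 1),
      costB Φ (G c (k + 3)) (G c (k + 2)) (G c (k + 1)) (G c k) (G c (k - 1)) ≤
      W (G c (k - 1)) (G c k) (G c (k + 1)) (G c (k + 2)) -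
      W (G c (k + 1 - 1)) (G c (k + 1)) (G c (k + 1 + 1)) (G c (k + 1 + 2)) := by
    intro k _
    have e1 : k + 1 + 1 = k + 2 := by ring
    have e2 : k + 1 + 2 = k + 3 := by ring
    have e3 : k + 1 - 1 = k := by ring
    rw [e1, e2, e3]
    have := hc (G c (k + 3)) (G c (k + 2)) (G c (k + 1)) (G c k) (G c (k - 1))
      (G_anti c (by omega)) (G_anti c (by omega)) (G_anti c (by omega)) (G_anti c (by omega))
      (G_le c _) (hI _) (hI _) (hI _) (hI _) (hI _)
    linarith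
  refine (Finset.sum_le_sum h1).trans ?_
  rw [telescope (fun k => W (G c (k - 1)) (G c k) (G c (k + 1)) (G c (k + 2)))
    (by omega : c i - 2 ≤ c j + 1)]
  rw [G_top c (k := c i - 2 - 1) fun k => by have := (hw k).1; omega,
    G_top c (k := c i - 2) fun k => by have := (hw k).1; omega,
    G_top c (k := c i - 2 + 1) fun k => by have := (hw k).1; omega,
    G_top c (k := c i - 2 + 2) fun k => by have := (hw k).1; omega,
    G_zero c (k := c j + 1 + 1 - 1) fun k => by have := (hw k).2; omega,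
    G_zero c (k := c j + 1 + 1) fun k => by have := (hw k).2; omega,
    G_zero c (k := c j + 1 + 1 + 1) fun k => by have := (hw k).2; omega,
    G_zero c (k := c j + 1 + 1 + 2) fun k => by have := (hw k).2; omega, hW0, sub_zero]
  exact hWN

/-- The lower certificate. -/
theorem certB_lower (hN : 2 ≤ N) {Φ : ℕ → ℕ → ℕ → ℝ} {W : ℕ → ℕ → ℕ → ℕ → ℝ} {v : ℝ}
    (h0 : Φ 0 0 0 = 0) (hNN : Φ N N N = 0)
    (hW0 : W 0 0 0 0 = 0) (hWN : v * ((N : ℝ) * (N - 1)) ≤ W N N N N)
    (hc : ∀ o p q r s : ℕ, o ≤ p → p ≤ q → q ≤ r → r ≤ s → s ≤ N → o ≠ 1 → p ≠ 1 → q ≠ 1 → r ≠ 1 →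
      s ≠ 1 → W s r q p ≤ W r q p o + costB Φ o p q r s) {V : ℝ} (hV : IsSpeed N V) : v ≤ V := by
  refine le_speed hV (fun _ => 0) (lower_of_drift hN inv_upd (h := levB Φ) (levB_bound hN h0 hNN)
    ?_ _ (inv_zero hN))
  intro c hI
  apply le_step_of_sum hN (F := fun x => tot x + levB Φ x)
  obtain ⟨i, j, hw⟩ := exists_window hN c
  have hij : c i ≤ c j := (hw j).1
  rw [driftB h0 hNN c (a := c i - 2) (b := c j + 1) fun k => ⟨by have := (hw k).1; omega,
    by have := (hw k).2; omega⟩]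
  have h1 : ∀ k ∈ Finset.Icc (c i - 2) (c j + 1),
      W (G c (k - 1)) (G c k) (G c (k + 1)) (G c (k + 2)) -
      W (G c (k + 1 - 1)) (G c (k + 1)) (G c (k + 1 + 1)) (G c (k + 1 + 2)) ≤
      costB Φ (G c (k + 3)) (G c (k + 2)) (G c (k + 1)) (G c k) (G c (k - 1)) := by
    intro k _
    have e1 : k + 1 + 1 = k + 2 := by ring
    have e2 : k + 1 + 2 = k + 3 := by ring
    have e3 : k + 1 - 1 = k := by ring
    rw [e1, e2, e3]
    have := hc (G c (k + 3)) (G c (k + 2)) (G c (k + 1)) (G c k) (G c (k - 1))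
      (G_anti c (by omega)) (G_anti c (by omega)) (G_anti c (by omega)) (G_anti c (by omega))
      (G_le c _) (hI _) (hI _) (hI _) (hI _) (hI _)
    linarith
  refine le_trans ?_ (Finset.sum_le_sum h1)
  rw [telescope (fun k => W (G c (k - 1)) (G c k) (G c (k + 1)) (G c (k + 2)))
    (by omega : c i - 2 ≤ c j + 1)]
  rw [G_top c (k := c i - 2 - 1) fun k => by have := (hw k).1; omega,
    G_top c (k := c i - 2) fun k => by have := (hw k).1; omega,
    G_top c (k := c i - 2 + 1) fun k => by have := (hw k).1; omega,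
    G_top c (k := c i - 2 + 2) fun k => by have := (hw k).1; omega,
    G_zero c (k := c j + 1 + 1 - 1) fun k => by have := (hw k).2; omega,
    G_zero c (k := c j + 1 + 1) fun k => by have := (hw k).2; omega,
    G_zero c (k := c j + 1 + 1 + 1) fun k => by have := (hw k).2; omega,
    G_zero c (k := c j + 1 + 1 + 2) fun k => by have := (hw k).2; omega, hW0, sub_zero]
  exact hWN

end Pool.Agent.Lib.MP7ec162
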