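import Pool.Agent.Lib.MP_7ec162_pr.Levels

/-!
# Integer certificates for small numbers of counters (MP_7ec162_pr)
-/

set_option autoImplicit false

namespace Pool.Agent.Lib.MP7ec162

open Finset

/-- Lookup in a triangular table. -/
def look (l : List ℤ) (x y : ℕ) : ℤ := l.getD (x * (x + 1) / 2 + y) 0

/-- The integer version of the cost, scaled by `D`. -/
def icost (D : ℤ) (Φ : ℕ → ℕ → ℤ) (p q r : ℕ) : ℤ :=
  2 * ((r : ℤ) - q) * q * (D + (Φ r (q + 1) - Φ r q) + (Φ (q + 1) p - Φ q p)) +
    ((r : ℤ) - q) * ((r : ℤ) - q - 1) * (2 * D + (Φ r (q + 2) - Φ r q) + (Φ (q + 2) p - Φ q p))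

theorem icost_eq {D : ℤ} (hD : 0 < D) (Φ : ℕ → ℕ → ℤ) (p q r : ℕ) :
    cost (fun x y => (Φ x y : ℝ) / D) p q r = (icost D Φ p q r : ℝ) / D := by
  have hD' : (D : ℝ) ≠ 0 := by exact_mod_cast hD.ne'
  unfold cost icost
  push_cast
  field_simp
  try ring

/-- The finite check of an upper certificate. -/
def chkU (N : ℕ) (D : ℤ) (Φ W : ℕ → ℕ → ℤ) : Bool :=
  (List.range (N + 1)).all fun r => (List.range (r + 1)).all fun q => (List.range (q + 1)).all
    fun p => decide (p = 1) || decide (q = 1) || decide (r = 1) ||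
      decide (W q p + icost D Φ p q r ≤ W r q)

/-- The finite check of a lower certificate. -/
def chkL (N : ℕ) (D : ℤ) (Φ W : ℕ → ℕ → ℤ) : Bool :=
  (List.range (N + 1)).all fun r => (List.range (r + 1)).all fun q => (List.range (q + 1)).all
    fun p => decide (p = 1) || decide (q = 1) || decide (r = 1) ||
      decide (W r q ≤ W q p + icost D Φ p q r)

theorem tab_upper {N : ℕ} (hN : 2 ≤ N) {D : ℤ} (hD : 0 < D) {Φ W : ℕ → ℕ → ℤ} {v : ℝ}
    (h0 : Φ 0 0 = 0) (hNN : Φ N N = 0) (hW0 : W 0 0 = 0)
    (hWN : (W N N : ℝ) ≤ v * D * ((N : ℝ) * (N - 1))) (hc : chkU N D Φ W = true) {V : ℝ}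
    (hV : IsSpeed N V) : V ≤ v := by
  have hD' : (0 : ℝ) < D := by exact_mod_cast hD
  refine cert_upper hN (Φ := fun x y => (Φ x y : ℝ) / D) (W := fun x y => (W x y : ℝ) / D)
    ?_ ?_ ?_ ?_ ?_ hV
  · simp [h0]
  · simp [hNN]
  · simp [hW0]
  · rw [div_le_iff₀ hD']
    linarith
  · intro p q r hpq hqr hrN hp hq hr
    rw [icost_eq hD, ← add_div]
    apply div_le_div_of_nonneg_right _ hD'.le
    unfold chkU at hc
    rw [List.all_eq_true] at hc
    have h1 := hc r (List.mem_range.mpr (by omega))
    rw [List.all_eq_true] at h1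
    have h2 := h1 q (List.mem_range.mpr (by omega))
    rw [List.all_eq_true] at h2
    have h3 := h2 p (List.mem_range.mpr (by omega))
    simp only [Bool.or_eq_true, decide_eq_true_eq] at h3
    have h4 : W q p + icost D Φ p q r ≤ W r q := by tauto
    exact_mod_cast h4

theorem tab_lower {N : ℕ} (hN : 2 ≤ N) {D : ℤ} (hD : 0 < D) {Φ W : ℕ → ℕ → ℤ} {v : ℝ}
    (h0 : Φ 0 0 = 0) (hNN : Φ N N = 0) (hW0 : W 0 0 = 0)
    (hWN : v * D * ((N : ℝ) * (N - 1)) ≤ (W N N : ℝ)) (hc : chkL N D Φ W = true) {V : ℝ}
    (hV : IsSpeed N V) : v ≤ V := by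
  have hD' : (0 : ℝ) < D := by exact_mod_cast hD
  refine cert_lower hN (Φ := fun x y => (Φ x y : ℝ) / D) (W := fun x y => (W x y : ℝ) / D)
    ?_ ?_ ?_ ?_ ?_ hV
  · simp [h0]
  · simp [hNN]
  · simp [hW0]
  · rw [le_div_iff₀ hD']
    linarith
  · intro p q r hpq hqr hrN hp hq hr
    rw [icost_eq hD, ← add_div]
    apply div_le_div_of_nonneg_right _ hD'.le
    unfold chkL at hc
    rw [List.all_eq_true] at hc
    have h1 := hc r (List.mem_range.mpr (by omega))
    rw [List.all_eq_true] at h1
    have h2 := h1 q (List.mem_range.mpr (by omega))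
    rw [List.all_eq_true] at h2
    have h3 := h2 p (List.mem_range.mpr (by omega))
    simp only [Bool.or_eq_true, decide_eq_true_eq] at h3
    have h4 : W r q ≤ W q p + icost D Φ p q r := by tauto
    exact_mod_cast h4

def phL2 : List ℤ := []

def wL2 : List ℤ := [0, 0, 0, 4, 0, 4]

def phL3 : List ℤ := [0, 0, 0, 0, 0, -508, 0, 0, -504, 0]

def wL3 : List ℤ := [0, 0, 0, 2964, 0, 2945, 8959, 0, 8959, 8940]

def phL4 : List ℤ := [0, 0, 0, 0, 0, -14475, 0, 0, -14462, -12249, 0, 0, -12231, -10009, 0]

def wL4 : List ℤ := [0, 0, 0, 50994, 0, 50939, 153175, 0, 139790, 139735, 333175, 0, 333175, 333175, 333120]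

def phU5 : List ℤ := [0, 0, 0, 0, 0, -14831, 0, 0, -15137, -14343, 0, 0, -14224, -14508, -9347, 0, 0, -12793, -13367,
  -9350, 0]

def wU5 : List ℤ := [0, 0, 0, 50368, 0, 50398, 149210, 0, 133574, 149240, 309337, 0, 297886, 300208, 309367, 544170,
  0, 544170, 544170, 544170, 544200]

def phL5 : List ℤ := [0, 0, 0, 0, 0, -16591, 0, 0, -16574, -18295, 0, 0, -15410, -17119, -13194, 0, 0, -13213, -14025,
  -10091, 0]

def wL5 : List ℤ := [0, 0, 0, 46747, 0, 46677, 140486, 0, 119795, 119725, 295012, 0, 277438, 270259, 270189, 535670,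
  0, 535670, 535670, 535670, 535600]

def phU6 : List ℤ := [0, 0, 0, 0, 0, -16616, 0, 0, -16852, -18384, 0, 0, -16320, -18567, -16534, 0, 0, -15443, -17871,
  -16561, -11017, 0, 0, -15443, -17611, -16322, -11039, 0]

def wU6 : List ℤ := [0, 0, 0, 46991, 0, 47214, 139113, 0, 121085, 139336, 284386, 0, 268806, 271538, 284609, 491363,
  0, 491363, 488762, 488967, 491586, 736934, 0, 801977, 801977, 801977, 801977, 802200]

def phU7 : List ℤ := [0, 0, 0, 0, 0, -3606, 0, 0, -3654, -4253, 0, 0, -3547, -4291, -4240, 0, 0, -3373, -4149, -4262,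
  -3594, 0, 0, -3158, -3933, -4093, -3601, -2369, 0, 0, -3312, -3933, -4057, -3572, -2374, 0]

def wU7 : List ℤ := [0, 0, 0, 8850, 0, 8913, 26137, 0, 22519, 26199, 53500, 0, 49574, 50506, 53562, 92596, 0, 90276,
  89947, 90903, 92658, 145311, 0, 145311, 145311, 144884, 144973, 145373, 196968, 0, 221866,
  221866, 221866, 221866, 221866, 221928]

def phU10 : List ℤ := [0, 0, 0, 0, 0, -19252, 0, 0, -19429, -24842, 0, 0, -19142, -24971, -28193, 0, 0, -18736, -24694,
  -28297, -29365, 0, 0, -18242, -24188, -27991, -29473, -28307, 0, 0, -17539, -23387, -27240,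
  -28974, -28396, -25059, 0, 0, -16738, -22387, -26209, -28012, -27706, -25125, -19963, 0, 0,
  -16692, -21998, -25717, -27455, -27113, -24695, -19975, -11824, 0, 0, -22225, -26289, -30506,
  -31925, -31404, -28930, -24228, -16166, 0]

def wU10 : List ℤ := [0, 0, 0, 42411, 0, 43328, 124344, 0, 101884, 125260, 251215, 0, 218589, 226072, 252131, 426194,
  0, 394464, 392683, 403674, 427110, 653667, 0, 631188, 625105, 627783, 638768, 654583, 944272, 0,
  932355, 925725, 923585, 926509, 934619, 945188, 1303603, 0, 1303603, 1298110, 1296468, 1293606,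
  1292025, 1297453, 1304520, 1679084, 0, 1756314, 1756314, 1756314, 1756314, 1756314, 1755312,
  1755654, 1757231, 1600672, 0, 2330984, 2250094, 2330984, 2330984, 2330984, 2330984, 2330984,
  2330984, 2331900]

def phU11 : List ℤ := [0, 0, 0, 0, 0, -3877, 0, 0, -3923, -5091, 0, 0, -3897, -5145, -5897, 0, 0, -3829, -5106, -5940,
  -6275, 0, 0, -3732, -5010, -5893, -6343, -6298, 0, 0, -3616, -4879, -5774, -6278, -6354, -5949,
  0, 0, -3507, -4741, -5631, -6150, -6284, -5998, -5267, 0, 0, -3328, -4528, -5397, -5909, -6056,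
  -5811, -5129, -4051, 0, 0, -3463, -4575, -5388, -5879, -6021, -5785, -5129, -4088, -2290, 0, 0,
  -3681, -4575, -5460, -5922, -6021, -5768, -5108, -4084, -2324, 0]

def wU11 : List ℤ := [0, 0, 0, 8921, 0, 9596, 25137, 0, 21413, 25812, 49906, 0, 43881, 45652, 50581, 84085, 0, 77618,
  77467, 80229, 84760, 128720, 0, 123203, 121929, 122576, 125213, 129395, 184802, 0, 181178,
  179567, 179004, 179894, 182248, 185477, 252273, 0, 252273, 250949, 250140, 249648, 250301,
  251710, 252948, 337078, 0, 337078, 337078, 336910, 336053, 335791, 336086, 337078, 337752,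
  442200, 0, 442200, 442200, 442200, 442200, 442200, 441862, 441776, 442121, 442875, 569345, 0,
  569345, 550657, 565812, 569345, 569345, 569345, 569345, 569345, 569345, 570020]

def phU12 : List ℤ := [0, 0, 0, 0, 0, -3820, 0, 0, -3894, -5083, 0, 0, -3871, -5171, -5993, 0, 0, -3822, -5149, -6062,
  -6525, 0, 0, -3744, -5074, -6033, -6582, -6661, 0, 0, -3650, -4968, -5942, -6551, -6760, -6506,
  0, 0, -3552, -4848, -5821, -6450, -6718, -6591, -6004, 0, 0, -3438, -4707, -5667, -6298, -6593,
  -6531, -6078, -5209, 0, 0, -3438, -4656, -5600, -6220, -6516, -6473, -6063, -5276, -3948, 0, 0,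
  -3762, -4861, -5805, -6394, -6679, -6635, -6240, -5480, -4213, -2196, 0, 0, -7390, -8073, -9397,
  -9927, -10170, -10106, -9704, -8952, -7704, -5741, 0]

def wU12 : List ℤ := [0, 0, 0, 9552, 0, 10743, 25830, 0, 22883, 27021, 50738, 0, 44600, 46753, 51930, 84742, 0, 77387,
  77310, 80862, 85934, 128860, 0, 122019, 120708, 121880, 125768, 130052, 183897, 0, 178526,
  176657, 176419, 177836, 181104, 185088, 250267, 0, 247590, 245808, 245039, 245047, 246520,
  249312, 251459, 329625, 0, 329625, 328720, 328187, 327348, 327347, 328421, 329356, 330817,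
  411734, 0, 426706, 426706, 426706, 426093, 425553, 425476, 426079, 426706, 427898, 467333, 0,
  544140, 538002, 544140, 544140, 544140, 543697, 543546, 543713, 544140, 545331, 81651, 0,
  682832, 617477, 682832, 682832, 682832, 682832, 682832, 682832, 682832, 682832, 684024]

def phU13 : List ℤ := [0, 0, 0, 0, 0, -3813, 0, 0, -3910, -5137, 0, 0, -3908, -5263, -6149, 0, 0, -3865, -5250, -6249,
  -6798, 0, 0, -3792, -5180, -6220, -6878, -7058, 0, 0, -3720, -5099, -6153, -6866, -7203, -7059,
  0, 0, -3632, -4994, -6047, -6779, -7172, -7183, -6762, 0, 0, -3534, -4871, -5912, -6650, -7072,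
  -7158, -6871, -6171, 0, 0, -3397, -4700, -5722, -6453, -6882, -6993, -6772, -6169, -5212, 0, 0,
  -3425, -4672, -5656, -6371, -6799, -6907, -6705, -6169, -5299, -3871, 0, 0, -3862, -5034, -5957,
  -6635, -7040, -7140, -6940, -6423, -5595, -4246, -2119, 0, 0, -8375, -9681, -10540, -11148,
  -11541, -11617, -11406, -10889, -10075, -8759, -6705, 0]

def wU13 : List ℤ := [0, 0, 0, 10114, 0, 11852, 26279, 0, 24293, 28018, 50845, 0, 45297, 47686, 52584, 84443, 0,
  76933, 76935, 81133, 86181, 127991, 0, 120497, 119095, 120395, 125319, 129730, 181508, 0,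
  175597, 173523, 173182, 175061, 179449, 183247, 246327, 0, 242722, 240737, 239646, 239976,
  242280, 245147, 248066, 323263, 0, 322562, 321157, 319879, 319206, 319819, 321279, 323263,
  325001, 415993, 0, 415993, 415441, 414678, 413908, 413711, 413476, 414488, 415993, 417732,
  505010, 0, 526303, 526303, 526303, 525606, 525097, 524638, 524742, 525372, 526303, 528042,
  548000, 0, 656321, 656321, 656321, 656321, 656019, 655458, 655173, 655185, 655509, 656321,
  658060, -56769, 0, 772238, 806653, 806653, 803029, 806653, 806653, 806653, 806653, 806653,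
  806653, 806653, 808392]

def phU14 : List ℤ := [0, 0, 0, 0, 0, -3796, 0, 0, -3924, -5168, 0, 0, -3927, -5334, -6261, 0, 0, -3900, -5333, -6391,
  -7018, 0, 0, -3843, -5279, -6386, -7125, -7444, 0, 0, -3769, -5198, -6317, -7114, -7534, -7494,
  0, 0, -3689, -5105, -6224, -7041, -7535, -7660, -7315, 0, 0, -3602, -4993, -6103, -6926, -7450,
  -7649, -7461, -6893, 0, 0, -3493, -4858, -5954, -6773, -7309, -7549, -7469, -7031, -6216, 0, 0,
  -3470, -4789, -5857, -6660, -7194, -7446, -7399, -7031, -6332, -5161, 0, 0, -3680, -4940, -5963,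
  -6736, -7256, -7506, -7472, -7139, -6498, -5433, -3761, 0, 0, -4722, -5914, -6879, -7613, -8104,
  -8340, -8300, -7979, -7365, -6359, -4783, -2029, 0, 0, -14943, -16229, -17100, -17832, -18288,
  -18500, -18445, -18120, -17513, -16530, -15004, -12340, 0]

def wU14 : List ℤ := [0, 0, 0, 10732, 0, 13055, 26779, 0, 25893, 29102, 51201, 0, 46169, 48865, 53524, 84318, 0,
  76920, 77037, 81790, 86641, 127045, 0, 119554, 118106, 119579, 124707, 129368, 180023, 0,
  173518, 171278, 171083, 173493, 179096, 182346, 243752, 0, 239015, 236817, 235641, 236113,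
  238807, 243171, 246075, 319004, 0, 317039, 315176, 313679, 312984, 314155, 317125, 319152,
  321476, 407998, 0, 407555, 406630, 405542, 404306, 403924, 404830, 406605, 407998, 410322,
  500585, 0, 513736, 513381, 512394, 511043, 510157, 509947, 510794, 512451, 513736, 516059,
  572590, 0, 637191, 637191, 636970, 636039, 635318, 634576, 634269, 634862, 635787, 637191,
  639515, 513649, 0, 779394, 779394, 779394, 779329, 778438, 777805, 777417, 777323, 777490,
  778110, 779394, 781717, -1261339, 0, 914698, 940800, 932707, 940800, 940800, 940800, 940800,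
  940800, 940800, 940800, 940800, 940800, 943124]

theorem speedL2 {V : ℝ} (hV : IsSpeed 2 V) : (2 : ℝ) ≤ V := by
  refine tab_lower (by norm_num) (D := 1) (by norm_num) (Φ := look phL2) (W := look wL2)
    (by decide) (by decide) (by decide) ?_ (by decide +kernel) hV
  have : look wL2 2 2 = 4 := by decide
  rw [this]
  norm_num

theorem speedL3 {V : ℝ} (hV : IsSpeed 3 V) : (149 / 100 : ℝ) ≤ V := by
  refine tab_lower (by norm_num) (D := 1000) (by norm_num) (Φ := look phL3) (W := look wL3)
    (by decide +kernel) (by decide +kernel) (by decide +kernel) ?_ (by decide +kernel) hV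
  have : look wL3 3 3 = 8940 := by decide +kernel
  rw [this]
  norm_num

theorem speedL4 {V : ℝ} (hV : IsSpeed 4 V) : (1388 / 1000 : ℝ) ≤ V := by
  refine tab_lower (by norm_num) (D := 20000) (by norm_num) (Φ := look phL4) (W := look wL4)
    (by decide +kernel) (by decide +kernel) (by decide +kernel) ?_ (by decide +kernel) hV
  have : look wL4 4 4 = 333120 := by decide +kernel
  rw [this]
  norm_num

theorem speedU5 {V : ℝ} (hV : IsSpeed 5 V) : V ≤ 13605 / 10000 := by
  refine tab_upper (by norm_num) (D := 20000) (by norm_num) (Φ := look phU5) (W := look wU5)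
    (by decide +kernel) (by decide +kernel) (by decide +kernel) ?_ (by decide +kernel) hV
  have : look wU5 5 5 = 544200 := by decide +kernel
  rw [this]
  norm_num

theorem speedL5 {V : ℝ} (hV : IsSpeed 5 V) : (1339 / 1000 : ℝ) ≤ V := by
  refine tab_lower (by norm_num) (D := 20000) (by norm_num) (Φ := look phL5) (W := look wL5)
    (by decide +kernel) (by decide +kernel) (by decide +kernel) ?_ (by decide +kernel) hV
  have : look wL5 5 5 = 535600 := by decide +kernel
  rw [this]
  norm_num

theorem speedU6 {V : ℝ} (hV : IsSpeed 6 V) : V ≤ 1337 / 1000 := by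
  refine tab_upper (by norm_num) (D := 20000) (by norm_num) (Φ := look phU6) (W := look wU6)
    (by decide +kernel) (by decide +kernel) (by decide +kernel) ?_ (by decide +kernel) hV
  have : look wU6 6 6 = 802200 := by decide +kernel
  rw [this]
  norm_num

theorem speedU7 {V : ℝ} (hV : IsSpeed 7 V) : V ≤ 1321 / 1000 := by
  refine tab_upper (by norm_num) (D := 4000) (by norm_num) (Φ := look phU7) (W := look wU7)
    (by decide +kernel) (by decide +kernel) (by decide +kernel) ?_ (by decide +kernel) hV
  have : look wU7 7 7 = 221928 := by decide +kernel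
  rw [this]
  norm_num

theorem speedU10 {V : ℝ} (hV : IsSpeed 10 V) : V ≤ 12955 / 10000 := by
  refine tab_upper (by norm_num) (D := 20000) (by norm_num) (Φ := look phU10) (W := look wU10)
    (by decide +kernel) (by decide +kernel) (by decide +kernel) ?_ (by decide +kernel) hV
  have : look wU10 10 10 = 2331900 := by decide +kernel
  rw [this]
  norm_num

theorem speedU11 {V : ℝ} (hV : IsSpeed 11 V) : V ≤ 12955 / 10000 := by
  refine tab_upper (by norm_num) (D := 4000) (by norm_num) (Φ := look phU11) (W := look wU11)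
    (by decide +kernel) (by decide +kernel) (by decide +kernel) ?_ (by decide +kernel) hV
  have : look wU11 11 11 = 570020 := by decide +kernel
  rw [this]
  norm_num

theorem speedU12 {V : ℝ} (hV : IsSpeed 12 V) : V ≤ 12955 / 10000 := by
  refine tab_upper (by norm_num) (D := 4000) (by norm_num) (Φ := look phU12) (W := look wU12)
    (by decide +kernel) (by decide +kernel) (by decide +kernel) ?_ (by decide +kernel) hV
  have : look wU12 12 12 = 684024 := by decide +kernel
  rw [this]
  norm_num

theorem speedU13 {V : ℝ} (hV : IsSpeed 13 V) : V ≤ 12955 / 10000 := by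
  refine tab_upper (by norm_num) (D := 4000) (by norm_num) (Φ := look phU13) (W := look wU13)
    (by decide +kernel) (by decide +kernel) (by decide +kernel) ?_ (by decide +kernel) hV
  have : look wU13 13 13 = 808392 := by decide +kernel
  rw [this]
  norm_num

theorem speedU14 {V : ℝ} (hV : IsSpeed 14 V) : V ≤ 12955 / 10000 := by
  refine tab_upper (by norm_num) (D := 4000) (by norm_num) (Φ := look phU14) (W := look wU14)
    (by decide +kernel) (by decide +kernel) (by decide +kernel) ?_ (by decide +kernel) hV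
  have : look wU14 14 14 = 943124 := by decide +kernel
  rw [this]
  norm_num

end Pool.Agent.Lib.MP7ec162
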